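import Pool.Agent.Y481.Defs
import Pool.Agent.W398.HT.STPE
import Pool.Agent.W503.HT.Upb

/-!
# Finite sums of products of entire functions of one variable, and their iterated integrals
-/

set_option autoImplicit false

namespace Pool.Agent.Y481

open Finset Filter Topology Metric MeasureTheory
open Pool.Agent.W711.HT
open scoped Real

/-- finite sums of products of entire functions of one variable (variables number `0, …, n-1`) -/
def Sep (n : ℕ) (f : (ℕ → ℂ) → ℂ) : Prop := ∃ (ι : Type) (I : Finset ι) (c : ι → ℂ)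
  (A : ι → ℕ → ℂ → ℂ), (∀ i j, Differentiable ℂ (A i j)) ∧
    ∀ ψ, f ψ = ∑ i ∈ I, c i * ∏ j ∈ range n, A i j (ψ j)

namespace Sep

variable {n : ℕ} {f g : (ℕ → ℂ) → ℂ}

lemma const (c : ℂ) : Sep n (fun _ => c) :=
  ⟨Unit, {()}, fun _ => c, fun _ _ _ => 1, fun _ _ => differentiable_const _, fun ψ => by simp⟩

lemma var {j : ℕ} (hj : j < n) {h : ℂ → ℂ} (hh : Differentiable ℂ h) :
    Sep n (fun ψ => h (ψ j)) := by
  refine ⟨Unit, {()}, fun _ => 1, fun _ i => if i = j then h else fun _ => 1, ?_, ?_⟩
  · intro _ i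
    by_cases hi : i = j
    · simp only [hi, if_true]; exact hh
    · simp only [hi, if_false]; exact differentiable_const _
  · intro ψ
    rw [sum_singleton, one_mul, prod_eq_single j]
    · simp
    · intro i _ hi
      simp [hi]
    · intro hj'
      exact absurd (mem_range.2 hj) hj'

lemma mul (hf : Sep n f) (hg : Sep n g) : Sep n (fun ψ => f ψ * g ψ) := by
  obtain ⟨ι, I, c, A, hA, hf⟩ := hf
  obtain ⟨ι', I', c', A', hA', hg⟩ := hg
  refine ⟨ι × ι', I ×ˢ I', fun p => c p.1 * c' p.2, fun p j w => A p.1 j w * A' p.2 j w, ?_, ?_⟩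
  · intro p j
    exact (hA p.1 j).mul (hA' p.2 j)
  · intro ψ
    beta_reduce
    rw [hf, hg, sum_mul_sum, sum_product]
    refine sum_congr rfl fun i _ => sum_congr rfl fun i' _ => ?_
    rw [prod_mul_distrib]
    ring

lemma add (hf : Sep n f) (hg : Sep n g) : Sep n (fun ψ => f ψ + g ψ) := by
  obtain ⟨ι, I, c, A, hA, hf⟩ := hf
  obtain ⟨ι', I', c', A', hA', hg⟩ := hg
  refine ⟨ι ⊕ ι', I.disjSum I', Sum.elim c c', Sum.elim A A', ?_, ?_⟩
  · rintro (p | p) j
    · exact hA p j
    · exact hA' p j
  · intro ψ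
    beta_reduce
    rw [hf, hg, sum_disjSum]
    rfl

lemma sum {κ : Type} (s : Finset κ) {F : κ → (ℕ → ℂ) → ℂ} (h : ∀ k ∈ s, Sep n (F k)) :
    Sep n (fun ψ => ∑ k ∈ s, F k ψ) := by
  classical
  induction s using Finset.induction_on with
  | empty => simpa using const (n := n) 0
  | insert a s ha ih =>
    have h1 : (fun ψ => ∑ k ∈ insert a s, F k ψ) = fun ψ => F a ψ + ∑ k ∈ s, F k ψ := by
      funext ψ
      rw [sum_insert ha]
    rw [h1]
    exact (h a (mem_insert_self _ _)).add (ih fun k hk => h k (mem_insert_of_mem hk))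

lemma prod {κ : Type} (s : Finset κ) {F : κ → (ℕ → ℂ) → ℂ} (h : ∀ k ∈ s, Sep n (F k)) :
    Sep n (fun ψ => ∏ k ∈ s, F k ψ) := by
  classical
  induction s using Finset.induction_on with
  | empty => simpa using const (n := n) 1
  | insert a s ha ih =>
    have h1 : (fun ψ => ∏ k ∈ insert a s, F k ψ) = fun ψ => F a ψ * ∏ k ∈ s, F k ψ := by
      funext ψ
      rw [prod_insert ha]
    rw [h1]
    exact (h a (mem_insert_self _ _)).mul (ih fun k hk => h k (mem_insert_of_mem hk))

lemma diff (hf : Sep n f) (ψ : ℕ → ℂ) (j : ℕ) :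
    Differentiable ℂ (fun w => f (Function.update ψ j w)) := by
  obtain ⟨ι, I, c, A, hA, hf⟩ := hf
  have h1 : (fun w => f (Function.update ψ j w)) = fun w =>
      ∑ i ∈ I, c i * ∏ k ∈ range n, A i k (Function.update ψ j w k) := by
    funext w
    rw [hf]
  rw [h1]
  refine Differentiable.fun_sum fun i _ => (differentiable_const _).mul ?_
  refine Differentiable.fun_finsetProd fun k _ => ?_
  by_cases hk : k = j
  · subst hk
    simp only [Function.update_self]
    exact hA i k
  · simp only [Function.update_of_ne hk]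
    exact differentiable_const _

/-- linear functionals on finite sums of entire functions -/
def Lin (Λ : (ℂ → ℂ) → ℂ) : Prop := ∀ (ι : Type) (I : Finset ι) (c : ι → ℂ) (h : ι → ℂ → ℂ),
  (∀ i, Differentiable ℂ (h i)) → Λ (fun w => ∑ i ∈ I, c i * h i w) = ∑ i ∈ I, c i * Λ (h i)

lemma int (hf : Sep n f) {j : ℕ} (hj : j < n) {Λ : (ℂ → ℂ) → ℂ} (hΛ : Lin Λ) :
    Sep n (fun ψ => Λ fun w => f (Function.update ψ j w)) := by
  obtain ⟨ι, I, c, A, hA, hf⟩ := hf
  refine ⟨ι, I, fun i => c i * Λ (A i j), fun i k => if k = j then fun _ => 1 else A i k, ?_, ?_⟩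
  · intro i k
    by_cases hk : k = j
    · simp only [hk, if_true]; exact differentiable_const _
    · simp only [hk, if_false]; exact hA i k
  · intro ψ
    have h1 : (fun w => f (Function.update ψ j w)) = fun w =>
        ∑ i ∈ I, (c i * ∏ k ∈ (range n).erase j, A i k (ψ k)) * A i j w := by
      funext w
      rw [hf]
      refine sum_congr rfl fun i _ => ?_
      rw [← mul_prod_erase (range n) _ (mem_range.2 hj), Function.update_self]
      have : ∏ k ∈ (range n).erase j, A i k (Function.update ψ j w k) =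
          ∏ k ∈ (range n).erase j, A i k (ψ k) := by
        refine prod_congr rfl fun k hk => ?_
        rw [Function.update_of_ne (ne_of_mem_erase hk)]
      rw [this]
      ring
    beta_reduce
    rw [h1, hΛ ι I _ _ (fun i => hA i j)]
    refine sum_congr rfl fun i _ => ?_
    rw [← mul_prod_erase (range n) (fun k => (if k = j then fun _ => 1 else A i k : ℂ → ℂ) (ψ k))
      (mem_range.2 hj)]
    have : ∏ k ∈ (range n).erase j, (if k = j then fun _ => 1 else A i k : ℂ → ℂ) (ψ k) =
        ∏ k ∈ (range n).erase j, A i k (ψ k) := by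
      refine prod_congr rfl fun k hk => ?_
      rw [if_neg (ne_of_mem_erase hk)]
    rw [this, if_pos rfl]
    ring

end Sep

/-! ### The iterated functionals -/

/-- iterated functionals, number `0` is the innermost one -/
def itG (Λ : ℕ → (ℂ → ℂ) → ℂ) : ℕ → ((ℕ → ℂ) → ℂ) → (ℕ → ℂ) → ℂ
  | 0, f => f
  | j + 1, f => fun ψ => Λ j fun w => itG Λ j f (Function.update ψ j w)

lemma itG_sep {Λ : ℕ → (ℂ → ℂ) → ℂ} (hΛ : ∀ j, Sep.Lin (Λ j)) {n : ℕ} {f : (ℕ → ℂ) → ℂ}
    (hf : Sep n f) {j : ℕ} (hj : j ≤ n) : Sep n (itG Λ j f) := by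
  induction j with
  | zero => exact hf
  | succ j ih => exact (ih (by omega)).int (by omega) (hΛ j)

/-- the integral over the whole path -/
noncomputable def LI (a : ℤ) (N : ℕ) (f : ℂ → ℂ) : ℂ :=
  upp (1 / N) fun w => Ea a N w * f w * kr N w

/-- the integral over the near part of the path -/
noncomputable def LN (ρ : ℝ) (a : ℤ) (N : ℕ) (f : ℂ → ℂ) : ℂ :=
  ∫ x in (-ρ)..ρ, Ea a N (x + (1 / N : ℝ) * Complex.I) * f (x + (1 / N : ℝ) * Complex.I) *
    kr N (x + (1 / N : ℝ) * Complex.I)

lemma itI_eq (a : ℕ → ℤ) (N : ℕ) (j : ℕ) (f : (ℕ → ℂ) → ℂ) :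
    itI a N j f = itG (fun j => LI (a j) N) j f := by
  induction j with
  | zero => rfl
  | succ j ih =>
    funext ψ
    simp only [itI, itG, ih, LI]

lemma LN_lin (ρ : ℝ) (a : ℤ) {N : ℕ} (hN : 1 ≤ N) : Sep.Lin (LN ρ a N) := by
  intro ι I c h hh
  unfold LN
  have h1 : ∀ i ∈ I, IntervalIntegrable (fun x : ℝ => c i * (Ea a N (x + (1 / N : ℝ) * Complex.I) *
      h i (x + (1 / N : ℝ) * Complex.I) * kr N (x + (1 / N : ℝ) * Complex.I))) volume (-ρ) ρ := by
    intro i _
    exact ((cont_hor hN a (hh i).continuous).intervalIntegrable _ _).const_mul _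
  have h2 := intervalIntegral.integral_finsetSum h1
  simp only [intervalIntegral.integral_const_mul] at h2
  rw [← h2]
  congr 1
  funext x
  rw [mul_sum, sum_mul]
  exact sum_congr rfl fun i _ => by ring

/-- continuity on the vertical parts -/
lemma cont_ver {N : ℕ} (hN : 1 ≤ N) (a : ℤ) {f : ℂ → ℂ} (hf : Continuous f) (b : Bool) :
    Continuous fun y : ℝ => Ea a N ((if b then (π : ℂ) else -π) + y * Complex.I) *
      f ((if b then (π : ℂ) else -π) + y * Complex.I) *
        kr N ((if b then (π : ℂ) else -π) + y * Complex.I) := by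
  have hNR : (0 : ℝ) < N := by exact_mod_cast hN
  have hc : Continuous fun y : ℝ => (if b then (π : ℂ) else -π) + (y : ℂ) * Complex.I := by fun_prop
  refine (Continuous.mul ?_ (hf.comp hc)).mul ?_
  · unfold Ea
    fun_prop
  · unfold kr
    refine Continuous.div (by fun_prop) (by fun_prop) ?_
    intro y
    refine mul_ne_zero (by norm_num) (pow_ne_zero _ ?_)
    apply Pool.Agent.W398.HT.cos_ne
    by_cases hy : y = 0
    · right
      intro k
      rw [hy]
      cases b with
      | false =>
        have : ((N : ℂ) * (((if false then (π : ℂ) else -π) + ((0 : ℝ) : ℂ) * Complex.I) + π) / 2) =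
            0 := by
          simp
        rw [this, Complex.zero_re]
        intro h0
        have h1 : (2 * (k : ℝ) + 1) = 0 := by
          have := Real.pi_pos
          nlinarith
        have h2 : 2 * k + 1 = 0 := by exact_mod_cast h1
        omega
      | true =>
        have : ((N : ℂ) * (((if true then (π : ℂ) else -π) + ((0 : ℝ) : ℂ) * Complex.I) + π) / 2) =
            ((N * π : ℝ) : ℂ) := by
          push_cast
          simp
          ring
        rw [this, Complex.ofReal_re]
        intro h0
        have h1 : (2 * (k : ℝ) + 1) = 2 * N := by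
          have := Real.pi_pos
          have h3 : π * (2 * (k : ℝ) + 1 - 2 * N) = 0 := by linarith
          rcases mul_eq_zero.1 h3 with h4 | h4
          · linarith
          · linarith
        have h2 : 2 * k + 1 = 2 * (N : ℤ) := by exact_mod_cast h1
        omega
    · left
      have h0 : ((N : ℂ) * (((if b then (π : ℂ) else -π) + (y : ℂ) * Complex.I) + π) / 2).im =
          N * y / 2 := by
        cases b with
        | false =>
          have : ((N : ℂ) * (((if false then (π : ℂ) else -π) + (y : ℂ) * Complex.I) + π) / 2) =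
            ((N * y / 2 : ℝ) : ℂ) * Complex.I := by
            push_cast
            simp
            ring
          rw [this]
          simp
        | true =>
          have : ((N : ℂ) * (((if true then (π : ℂ) else -π) + (y : ℂ) * Complex.I) + π) / 2) =
            ((N * π : ℝ) : ℂ) + ((N * y / 2 : ℝ) : ℂ) * Complex.I := by
            push_cast
            simp
            ring
          rw [this]
          simp
      rw [h0]
      positivity

lemma LI_lin (a : ℤ) {N : ℕ} (hN : 1 ≤ N) : Sep.Lin (LI a N) := by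
  intro ι I c h hh
  unfold LI upp
  have hv : ∀ b : Bool, ∀ i ∈ I, IntervalIntegrable (fun y : ℝ => c i *
      (Ea a N ((if b then (π : ℂ) else -π) + y * Complex.I) *
      h i ((if b then (π : ℂ) else -π) + y * Complex.I) *
        kr N ((if b then (π : ℂ) else -π) + y * Complex.I))) volume 0 (1 / N) := by
    intro b i _
    exact ((cont_ver hN a (hh i).continuous b).intervalIntegrable _ _).const_mul _
  have h1 : ∀ i ∈ I, IntervalIntegrable (fun x : ℝ => c i * (Ea a N (x + (1 / N : ℝ) * Complex.I) *
      h i (x + (1 / N : ℝ) * Complex.I) * kr N (x + (1 / N : ℝ) * Complex.I))) volume (-π) π := by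
    intro i _
    exact ((cont_hor hN a (hh i).continuous).intervalIntegrable _ _).const_mul _
  have e1 := intervalIntegral.integral_finsetSum h1
  have e2 := intervalIntegral.integral_finsetSum (hv true)
  have e3 := intervalIntegral.integral_finsetSum (hv false)
  simp only [intervalIntegral.integral_const_mul, if_true, Bool.false_eq_true, if_false] at e1 e2 e3
  have k1 : ∀ z : ℂ, Ea a N z * (∑ i ∈ I, c i * h i z) * kr N z =
      ∑ i ∈ I, c i * (Ea a N z * h i z * kr N z) := by
    intro z
    rw [mul_sum, sum_mul]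
    exact sum_congr rfl fun i _ => by ring
  simp only [k1]
  push_cast at e1 ⊢
  rw [e1, e2, e3, mul_sum, mul_sum, ← sum_add_distrib, ← sum_sub_distrib]
  refine sum_congr rfl fun i _ => ?_
  ring

end Pool.Agent.Y481
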