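import Pool.Agent.W719.AR.Geo
import Pool.Agent.W711.HT.Stm2
import Pool.Agent.W715.VC.Axis

/-!
# Highly twisted closed 3-braids with their axes: definitions and statements

The braid `∏ s_1^{a_i} s_2^{b_i}` is closed and its braid axis is added.  The twist regions form a
ring, with the weights `a_1, b_1, a_2, b_2, …`, `n = 2 k` of them.
-/

set_option autoImplicit false

namespace Pool.Agent.Y481

open Finset Filter Topology Metric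
open Pool.Agent.W711.HT
open Pool.Agent.W719.AR (Fl VOK)
open scoped Real

/-! ### The exact formula -/

/-- `r_d(ψ) = R_d(ψ) / S_d^2`, and zero outside of `0 ≤ d < N` -/
noncomputable def rd (N : ℕ) (d : ℤ) (ψ : ℂ) : ℂ :=
  if 0 ≤ d ∧ d < N then Rp N d.toNat ψ / (Sd N d.toNat : ℂ) ^ 2 else 0

/-- the kernel of an edge with the shift `δ` -/
noncomputable def kd (N : ℕ) (δ : ℤ) (ψ ψ' : ℂ) : ℂ :=
  ∑ d ∈ range N, rd N d ψ * rd N (d - δ) ψ'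

/-- the kernel of the ring with `n` edges, sum over the shift -/
noncomputable def WN (n N : ℕ) (ψ : ℕ → ℂ) : ℂ :=
  ∑ δ ∈ Ioo (-(N : ℤ)) N, ∏ j ∈ range n, kd N δ (ψ j) (ψ ((j + 1) % n))

/-- iterated integral over the variables number `0, …, j - 1` (number `0` is the innermost one) -/
noncomputable def itI (a : ℕ → ℤ) (N : ℕ) : ℕ → ((ℕ → ℂ) → ℂ) → (ℕ → ℂ) → ℂ
  | 0, f => f
  | j + 1, f => fun ψ => upp (1 / N) fun w =>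
      Ea (a j) N w * itI a N j f (Function.update ψ j w) * kr N w

/-- `|a|` letters `s_g` or its inverse -/
def letters (g : ℕ) (a : ℤ) : List (ℕ × Bool) := List.replicate a.natAbs (g, decide (0 ≤ a))

/-- the word of the braid -/
def word (l : List (ℤ × ℤ)) : List (ℕ × Bool) :=
  (l.map fun p => letters 0 p.1 ++ letters 1 p.2).flatten

/-- the weights of the ring -/
def wts (l : List (ℤ × ℤ)) : List ℤ := (l.map fun p => [p.1, p.2]).flatten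

/-- the weights as a function -/
def cw (l : List (ℤ × ℤ)) (j : ℕ) : ℤ := (wts l).getD j 0

/-! #### Steps of the exact formula -/

/-- TRK: the trace on the third tensor power and the traces on the spaces `K_m` -/
def S_TRK : Prop := ∀ (N : ℕ) (w : List (ℕ × Bool))
  (B : ∀ m : ℕ, Matrix (Fin (m + 1)) (Fin (m + 1)) ℂ), 1 ≤ N →
  (∀ m < N, ∀ j : Fin (m + 1), (Pool.Agent.W715.VC.rep3 N w).mulVec (Pool.Agent.W715.VC.yv N m j) =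
    ∑ i : Fin (m + 1), B m i j • Pool.Agent.W715.VC.yv N m i) →
  (Pool.Agent.W715.VC.rep3 N w).trace =
    N * ((B (N - 1)).trace + 2 * ∑ m ∈ range (N - 1), (B m).trace)

/-- matrix coefficients of a twist region -/
noncomputable def cc (a : ℤ) (N : ℕ) (d e : ℤ) : ℂ :=
  upp (1 / N) fun ψ => Ea a N ψ * (rd N d ψ * rd N e ψ) * kr N ψ

/-- the matrix of a twist region -/
noncomputable def MM (N : ℕ) (δ : ℤ) (a : ℤ) : Matrix (Fin N) (Fin N) ℂ :=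
  fun x y => cc a N ((x : ℕ) - δ) (y : ℕ)

/-- the trace with the shift `δ` -/
noncomputable def TT (l : List ℤ) (N : ℕ) (δ : ℤ) : ℂ := ((l.map (MM N δ)).prod).trace

/-- KAP: the traces on the spaces `K_m`, `m = N - 1 - δ` -/
def S_KAP : Prop := ∃ u₀ : ℕ → ℂ, (∀ N, ‖u₀ N‖ = 1) ∧ ∀ (l : List (ℤ × ℤ)) (N : ℕ), 2 ≤ N →
  ∃ B : ∀ m : ℕ, Matrix (Fin (m + 1)) (Fin (m + 1)) ℂ,
    (∀ m < N, ∀ j : Fin (m + 1),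
      (Pool.Agent.W715.VC.rep3 N (word l)).mulVec (Pool.Agent.W715.VC.yv N m j) =
        ∑ i : Fin (m + 1), B m i j • Pool.Agent.W715.VC.yv N m i) ∧
    (l ≠ [] → ∀ δ : ℕ, δ < N → (B (N - 1 - δ)).trace =
      (-1) ^ l.length * u₀ N ^ (wts l).sum * ((N : ℂ) ^ 2 / (2 * π)) ^ (2 * l.length) *
        TT (wts l) N (-(δ : ℤ)))

/-- EXC: the iterated integral is the sum of the traces -/
def S_EXC : Prop := ∀ (l : List ℤ) (N : ℕ) (ψ : ℕ → ℂ), 1 ≤ N → l ≠ [] →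
  itI (fun j => l.getD j 0) N l.length (WN l.length N) ψ = ∑ δ ∈ Ioo (-(N : ℤ)) N, TT l N δ

/-- TR: the exact formula for the trace of the braid -/
def S_TR : Prop := ∀ (l : List (ℤ × ℤ)) (N : ℕ), 2 ≤ N → l ≠ [] →
  ‖(Pool.Agent.W715.VC.rep3 N (word l)).trace‖ =
    N * ((N : ℝ) ^ 2 / (2 * π)) ^ (2 * l.length) *
      ‖itI (cw l) N (2 * l.length) (WN (2 * l.length) N) 0‖

/-! ### Geometry -/

/-- angle structures on the ring of octahedra: the edge number `j` joins the vertices number `j`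
and `j + 1` (modulo `n`), `f j` are the angles at the vertex `j`, `g j` those at the vertex
`j + 1` -/
def RingAng (n : ℕ) (a : ℕ → ℤ) (f g : ℕ → Fl) : Prop := ∀ j < n,
  (f j).Pos ∧ (g j).Pos ∧ (f j).b + (f j).c' + ((g j).b + (g j).c') = 2 * π ∧
    VOK (a ((j + 1) % n)) [(g j, f j), (f ((j + 1) % n), g ((j + 1) % n))]

/-- the volume -/
noncomputable def ringVol (n : ℕ) (f g : ℕ → Fl) : ℝ :=
  ∑ j ∈ range n, 2 * ((f j).vol + (g j).vol)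

/-- critical configurations on the ring -/
def RCrit (s : ℂ → ℂ → ℂ) (ρ τ : ℝ) (n : ℕ) (a : ℕ → ℤ) (z : ℕ → ℂ) : Prop := ∀ j < n,
  z j ∈ Rc ρ τ ∧ 0 < (z j).im ∧ ‖z j‖ ≤ 1 / 10 ∧
    Complex.I * a ((j + 1) % n) * z ((j + 1) % n) / (2 * π) + Complex.I +
      deriv (fun w => s (z j) w) (z ((j + 1) % n)) +
      deriv (fun w => s w (z (((j + 1) % n + 1) % n))) (z ((j + 1) % n)) = 0

/-- the critical value -/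
noncomputable def RVal (s : ℂ → ℂ → ℂ) (n : ℕ) (a : ℕ → ℤ) (z : ℕ → ℂ) : ℂ :=
  ∑ j ∈ range n, (Complex.I * a j * z j ^ 2 / (4 * π) + Complex.I * z j +
    s (z j) (z ((j + 1) % n)))

/-- GEO: the critical value is the maximal volume of the angle structures -/
def S_GEOR : Prop := ∀ (ρ τ κ c : ℝ) (s dl : ℂ → ℂ → ℂ), KD ρ τ κ c s dl →
  ∀ (n : ℕ) (a : ℕ → ℤ) (z : ℕ → ℂ), 2 ≤ n → RCrit s ρ τ n a z →
    IsGreatest {W : ℝ | ∃ f g : ℕ → Fl, RingAng n a f g ∧ ringVol n f g = W}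
      (2 * π * (RVal s n a z).re)

/-! ### Analysis -/

/-- bound of the kernel of the ring -/
def S_WB : Prop := ∃ ρs : ℝ, 0 < ρs ∧ ρs ≤ 1 ∧ ∀ (n : ℕ) (ε : ℝ), 0 < ε → ∃ τ : ℝ, 0 < τ ∧
  ∀ᶠ N : ℕ in atTop, ∀ ψ : ℕ → ℂ, (∀ j < n, |(ψ j).re| ≤ π ∧ |(ψ j).im| ≤ τ) →
    ‖WN n N ψ‖ ≤ Real.exp (N * (∑ j ∈ range n, (2 * bet - 2 * c1 * min |(ψ j).re| ρs ^ 2) + ε))

/-- The kernel of an edge with the shift `x = δ / N`: analytic interpolation, and asymptotics.  `G`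
is the critical value. -/
structure KX (x₁ ρ₁ κ₁ c₁ C₁ : ℝ) (s : ℂ → ℂ → ℂ) (G : ℂ → ℂ → ℂ → ℂ) (kan : ℕ → ℂ → ℂ → ℂ → ℂ) :
    Prop where
  hx : 0 < x₁ ∧ x₁ ≤ 1
  hρ : 0 < ρ₁
  hκ : 0 < κ₁
  hc : 0 < c₁
  an : ∀ ψ ∈ Rc ρ₁ ρ₁, ∀ ψ' ∈ Rc ρ₁ ρ₁, DifferentiableOn ℂ (fun x => G x ψ ψ') (ball 0 x₁)
  bd : ∀ ψ ∈ Rc ρ₁ ρ₁, ∀ ψ' ∈ Rc ρ₁ ρ₁, ∀ x ∈ ball (0 : ℂ) x₁, ‖G x ψ ψ'‖ ≤ C₁
  zero : ∀ ψ ∈ Rc ρ₁ ρ₁, ∀ ψ' ∈ Rc ρ₁ ρ₁, G 0 ψ ψ' = s ψ ψ'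
  der : ∀ ψ ∈ Rc ρ₁ ρ₁, ∀ ψ' ∈ Rc ρ₁ ρ₁, HasDerivAt (fun x => G x ψ ψ')
    (Complex.log (1 + Complex.cos ψ) - Complex.log (1 + Complex.cos ψ')) 0
  conc : ∀ ψ ∈ Rc ρ₁ ρ₁, ∀ ψ' ∈ Rc ρ₁ ρ₁, ∀ x ∈ ball (0 : ℂ) x₁,
    (deriv (deriv fun x => G x ψ ψ') x).re ≤ -c₁
  kan_an : ∀ᶠ N : ℕ in atTop, ∀ ψ ∈ Rc ρ₁ ρ₁, ∀ ψ' ∈ Rc ρ₁ ρ₁,
    DifferentiableOn ℂ (fun x => kan N x ψ ψ') (ball 0 x₁)
  near : ∀ᶠ N : ℕ in atTop, ∀ δ : ℤ, |(δ : ℝ) / N| < x₁ → ∀ ψ ∈ Rc ρ₁ ρ₁, ∀ ψ' ∈ Rc ρ₁ ρ₁,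
    ‖kd N δ ψ ψ' - kan N ((δ : ℂ) / N) ψ ψ'‖ ≤ Real.exp (N * ((s ψ ψ').re - κ₁))
  lim : ∀ (x ψ ψ' : ℕ → ℂ) (x₀ ψ₀ ψ₀' : ℂ), x₀ ∈ ball (0 : ℂ) x₁ → ψ₀ ∈ Rc ρ₁ ρ₁ →
    ψ₀' ∈ Rc ρ₁ ρ₁ → Tendsto x atTop (𝓝 x₀) → Tendsto ψ atTop (𝓝 ψ₀) → Tendsto ψ' atTop (𝓝 ψ₀') →
    Tendsto (fun N => Real.log ‖kan N (x N) (ψ N) (ψ' N)‖ / N) atTop (𝓝 (G x₀ ψ₀ ψ₀').re)

/-- KX: the kernel with shift -/
def S_KX : Prop := ∀ (ρ₀ c C : ℝ) (s dl : ℂ → ℂ → ℂ), SD ρ₀ c C s dl →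
  ∃ (x₁ ρ₁ κ₁ c₁ C₁ : ℝ) (G : ℂ → ℂ → ℂ → ℂ) (kan : ℕ → ℂ → ℂ → ℂ → ℂ), ρ₁ ≤ ρ₀ ∧
    KX x₁ ρ₁ κ₁ c₁ C₁ s G kan

/-- WM: asymptotics of the kernel of the ring -/
def S_WM : Prop := ∀ (ρ₀ c C : ℝ) (s dl : ℂ → ℂ → ℂ), SD ρ₀ c C s dl →
  ∃ ρ₂ : ℝ, 0 < ρ₂ ∧ ρ₂ ≤ ρ₀ ∧ ∀ (n : ℕ), 1 ≤ n → ∀ (ψ : ℕ → ℕ → ℂ) (ψ₀ : ℕ → ℂ),
    (∀ j < n, ψ₀ j ∈ Rc ρ₂ ρ₂) → (∀ j < n, Tendsto (fun N => ψ N j) atTop (𝓝 (ψ₀ j))) →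
    Tendsto (fun N => Real.log ‖WN n N (ψ N)‖ / N) atTop
      (𝓝 (∑ j ∈ range n, s (ψ₀ j) (ψ₀ ((j + 1) % n))).re)

/-- KERU: the properties of the kernel, for all small `ρ`, `τ` -/
def S_KERU : Prop := ∃ (ρ₀ c C : ℝ) (s dl : ℂ → ℂ → ℂ), SD ρ₀ c C s dl ∧ ∃ ρ₁ : ℝ, 0 < ρ₁ ∧
  ∀ ρ : ℝ, 0 < ρ → ρ ≤ ρ₁ → ∃ τ₁ : ℝ, 0 < τ₁ ∧ ∀ τ : ℝ, 0 < τ → τ ≤ τ₁ →
    ∃ κ : ℝ, KD ρ τ κ c s dl

/-! #### Chains with both ends at `w` -/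

/-- `w, z_0, …, z_{m-1}, w'` -/
def ends (m : ℕ) (w w' : ℂ) (z : ℕ → ℂ) (j : ℕ) : ℂ :=
  if j = 0 then w else if j ≤ m then z (j - 1) else w'

/-- critical point equations of a chain -/
def ChCrit (s : ℂ → ℂ → ℂ) (m : ℕ) (a : ℕ → ℤ) (y : ℕ → ℂ) : Prop := ∀ j < m,
  Complex.I * a j * y (j + 1) / (2 * π) + Complex.I + deriv (fun v => s (y j) v) (y (j + 1)) +
    deriv (fun v => s v (y (j + 2))) (y (j + 1)) = 0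

/-- value of a chain -/
noncomputable def ChVal (s : ℂ → ℂ → ℂ) (m : ℕ) (a : ℕ → ℤ) (y : ℕ → ℂ) : ℂ :=
  ∑ j ∈ range m, (Complex.I * a j * y (j + 1) ^ 2 / (4 * π) + Complex.I * y (j + 1)) +
    ∑ j ∈ range (m + 1), s (y j) (y (j + 1))

/-- CHV: the critical value of a chain with both ends at `w` is an analytic function of `w` -/
def S_CHV : Prop := ∀ (ρ τ κ c : ℝ) (s dl : ℂ → ℂ → ℂ), KD ρ τ κ c s dl →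
  ∃ r M : ℝ, 0 < r ∧ r ≤ τ ∧ 0 < M ∧ ∀ (m : ℕ) (a : ℕ → ℤ), 1 ≤ m → (∀ j < m, M ≤ |(a j : ℝ)|) →
    ∃ zz : ℂ → ℕ → ℂ, ∀ w ∈ Rc (2 * ρ) (2 * τ), (∀ j < m, ‖zz w j‖ ≤ r) ∧
      ChCrit s m a (ends m w w (zz w)) ∧
      (∀ z : ℕ → ℂ, (∀ j < m, ‖z j‖ ≤ r) → ChCrit s m a (ends m w w z) →
        ∀ j < m, z j = zz w j) ∧
      HasDerivAt (fun w => ChVal s m a (ends m w w (zz w)))
        (deriv (fun v => s v (zz w 0)) w + deriv (fun v => s (zz w (m - 1)) v) w) w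

/-- MAIN: the growth rate is the critical value -/
def S_MAINR : Prop := ∃ (ρ τ κ c : ℝ) (s dl : ℂ → ℂ → ℂ), KD ρ τ κ c s dl ∧
  ∀ n : ℕ, 2 ≤ n → ∃ M : ℝ, ∀ a : ℕ → ℤ, (∀ j < n, M ≤ |(a j : ℝ)|) →
    ∃ z : ℕ → ℂ, RCrit s ρ τ n a z ∧
      Tendsto (fun N : ℕ => Real.log ‖itI a N n (WN n N) 0‖ / N) atTop (𝓝 (RVal s n a z).re)

end Pool.Agent.Y481
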