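import Pool.Agent.W711.HT.Stm2
import Pool.Agent.W588.HT.LapSum

/-!
# The sum over the shift: the saddle point method at the critical point `0`
-/

set_option autoImplicit false

namespace Pool.Agent.Y481

open Filter Topology Metric Finset
open Pool.Agent.W711.HT
open scoped Real

/-- strict maximum at a critical point on the real axis -/
lemma line_max {x₂ w : ℝ} (hw : w < x₂) {Q : ℂ → ℂ}
    (hQ : DifferentiableOn ℂ Q (ball 0 x₂)) (h0 : deriv Q 0 = 0)
    (h2 : ∀ z ∈ ball (0 : ℂ) x₂, (deriv (deriv Q) z).re < 0) {x : ℝ} (hx : |x| ≤ w) (hx0 : x ≠ 0) :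
    (Q x).re < (Q 0).re := by
  have hmem : ∀ t : ℝ, |t| ≤ w → (t : ℂ) ∈ ball (0 : ℂ) x₂ := by
    intro t ht
    rw [mem_ball_zero_iff, Complex.norm_real, Real.norm_eq_abs]
    linarith
  have hd1 : ∀ t : ℝ, |t| ≤ w → HasDerivAt (fun t : ℝ => (Q t).re) (deriv Q t).re t := by
    intro t ht
    exact ((hQ.differentiableAt (isOpen_ball.mem_nhds (hmem t ht))).hasDerivAt).real_of_complex
  have hQ' : DifferentiableOn ℂ (deriv Q) (ball 0 x₂) := hQ.deriv isOpen_ball
  have hd2 : ∀ t : ℝ, |t| ≤ w → HasDerivAt (fun t : ℝ => (deriv Q t).re) (deriv (deriv Q) t).re t := by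
    intro t ht
    exact ((hQ'.differentiableAt (isOpen_ball.mem_nhds (hmem t ht))).hasDerivAt).real_of_complex
  have h00 : (deriv Q ((0 : ℝ) : ℂ)).re = 0 := by rw [Complex.ofReal_zero, h0, Complex.zero_re]
  rcases lt_or_gt_of_ne hx0 with hneg | hpos
  · have hin : ∀ t ∈ Set.Icc x 0, |t| ≤ w := by
      intro t ht
      rw [abs_of_nonpos ht.2]
      rw [abs_of_neg hneg] at hx
      linarith [ht.1]
    obtain ⟨ξ, hξ, e1⟩ := exists_hasDerivAt_eq_slope (fun t : ℝ => (Q t).re)
      (fun t : ℝ => (deriv Q t).re) hneg (fun t ht => (hd1 t (hin t ht)).continuousAt.continuousWithinAt)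
      (fun t ht => hd1 t (hin t ⟨ht.1.le, ht.2.le⟩))
    have hin2 : ∀ t ∈ Set.Icc ξ 0, |t| ≤ w := fun t ht => hin t ⟨hξ.1.le.trans ht.1, ht.2⟩
    obtain ⟨η, hη, e2⟩ := exists_hasDerivAt_eq_slope (fun t : ℝ => (deriv Q t).re)
      (fun t : ℝ => (deriv (deriv Q) t).re) hξ.2
      (fun t ht => (hd2 t (hin2 t ht)).continuousAt.continuousWithinAt)
      (fun t ht => hd2 t (hin2 t ⟨ht.1.le, ht.2.le⟩))
    have hη2 := h2 η (hmem η (hin2 η ⟨hη.1.le, hη.2.le⟩))
    rw [h00] at e2
    rw [e2, zero_sub, zero_sub, neg_div_neg_eq] at hη2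
    have h3 : 0 < (deriv Q ξ).re := by
      by_contra hcon
      push Not at hcon
      have := div_nonneg_of_nonpos hcon hξ.2.le
      linarith
    rw [e1, Complex.ofReal_zero] at h3
    have h4 : 0 < 0 - x := by linarith
    have h5 := (div_pos_iff_of_pos_right h4).1 h3
    linarith
  · have hin : ∀ t ∈ Set.Icc 0 x, |t| ≤ w := by
      intro t ht
      rw [abs_of_nonneg ht.1]
      rw [abs_of_pos hpos] at hx
      linarith [ht.2]
    obtain ⟨ξ, hξ, e1⟩ := exists_hasDerivAt_eq_slope (fun t : ℝ => (Q t).re)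
      (fun t : ℝ => (deriv Q t).re) hpos (fun t ht => (hd1 t (hin t ht)).continuousAt.continuousWithinAt)
      (fun t ht => hd1 t (hin t ⟨ht.1.le, ht.2.le⟩))
    have hin2 : ∀ t ∈ Set.Icc 0 ξ, |t| ≤ w := fun t ht => hin t ⟨ht.1, ht.2.trans hξ.2.le⟩
    obtain ⟨η, hη, e2⟩ := exists_hasDerivAt_eq_slope (fun t : ℝ => (deriv Q t).re)
      (fun t : ℝ => (deriv (deriv Q) t).re) hξ.1
      (fun t ht => (hd2 t (hin2 t ht)).continuousAt.continuousWithinAt)
      (fun t ht => hd2 t (hin2 t ⟨ht.1.le, ht.2.le⟩))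
    have hη2 := h2 η (hmem η (hin2 η ⟨hη.1.le, hη.2.le⟩))
    rw [h00] at e2
    rw [e2, sub_zero, sub_zero] at hη2
    have h3 : (deriv Q ξ).re < 0 := by
      by_contra hcon
      push Not at hcon
      have := div_nonneg hcon hξ.1.le
      linarith
    rw [e1, Complex.ofReal_zero, sub_zero] at h3
    have h5 : (Q x).re - (Q 0).re < 0 := by
      by_contra hcon
      push Not at hcon
      have := div_nonneg hcon hpos.le
      linarith
    linarith

/-- the height of the rectangle for the saddle point method -/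
lemma exists_height {x₂ w : ℝ} (hw0 : 0 < w) (hw : w < x₂) {Q : ℂ → ℂ}
    (hQ : DifferentiableOn ℂ Q (ball 0 x₂)) (h0 : deriv Q 0 = 0)
    (h2 : ∀ z ∈ ball (0 : ℂ) x₂, (deriv (deriv Q) z).re < 0) :
    ∃ h : ℝ, 0 < h ∧ (∀ x y : ℝ, |x| ≤ w → |y| ≤ h → (x : ℂ) + y * Complex.I ∈ ball (0 : ℂ) x₂) ∧
      (∀ y : ℝ, |y| ≤ h → (Q (w + y * Complex.I)).re < (Q 0).re ∧
        (Q (-w + y * Complex.I)).re < (Q 0).re) ∧
      ∀ x : ℝ, |x| ≤ w → ∀ y : ℝ, |y| = h → (Q (x + y * Complex.I)).re - 2 * π * h < (Q 0).re := by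
  have hQ' : DifferentiableOn ℂ (deriv Q) (ball 0 x₂) := hQ.deriv isOpen_ball
  have hx20 : 0 < x₂ := hw0.trans hw
  have m0 : (0 : ℂ) ∈ ball (0 : ℂ) x₂ := mem_ball_self hx20
  have hK : ∀ x : ℝ, -w ≤ x → x ≤ w → (x : ℂ) + (0 : ℝ) * Complex.I ∈ ball (0 : ℂ) x₂ := by
    intro x hx1 hx2
    rw [Complex.ofReal_zero, zero_mul, add_zero, mem_ball_zero_iff, Complex.norm_real,
      Real.norm_eq_abs]
    exact (abs_le.2 ⟨hx1, hx2⟩).trans_lt hw
  -- small derivative near `0`
  obtain ⟨r, hr, hr1⟩ : ∃ r : ℝ, 0 < r ∧ ∀ z ∈ ball (0 : ℂ) r, z ∈ ball (0 : ℂ) x₂ ∧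
      ‖deriv Q z‖ ≤ π := by
    have hc : ContinuousAt (fun z => ‖deriv Q z‖) 0 :=
      (hQ'.continuousOn.continuousAt (isOpen_ball.mem_nhds m0)).norm
    have h3 : ∀ᶠ z in 𝓝 (0 : ℂ), z ∈ ball (0 : ℂ) x₂ ∧ ‖deriv Q z‖ ≤ π := by
      have hU : ∀ᶠ z in 𝓝 (0 : ℂ), z ∈ ball (0 : ℂ) x₂ := isOpen_ball.mem_nhds m0
      refine hU.and ?_
      refine hc.tendsto.eventually_le_const ?_
      rw [h0, norm_zero]
      exact Real.pi_pos
    obtain ⟨r, hr, h4⟩ := Metric.eventually_nhds_iff.1 h3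
    exact ⟨r, hr, fun z hz => h4 hz⟩
  -- away from `0`
  obtain ⟨κ, hκ, hgap⟩ := Pool.Agent.W588.HT.gap (φ := fun x : ℝ => (Q x).re) (a := -w) (b := w)
    (x0 := 0) (v := (Q 0).re) (by
      apply Complex.continuous_re.comp_continuousOn
      apply hQ.continuousOn.comp (by fun_prop)
      intro x hx
      have := hK x hx.1 hx.2
      rwa [Complex.ofReal_zero, zero_mul, add_zero] at this)
    (fun x hx1 hx2 hx3 => line_max hw hQ h0 h2 (abs_le.2 ⟨hx1, hx2⟩) hx3) (δ := min (r / 2) w)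
    (lt_min (by positivity) hw0)
  obtain ⟨r2, hr2, htube⟩ := Pool.Agent.W588.HT.tube isOpen_ball hQ.continuousOn hK
    (ε := κ / 2) (by positivity)
  refine ⟨min (r / 2) (r2 / 2), by positivity, ?_, ?_, ?_⟩
  · intro x y hx hy
    obtain ⟨h3, h4⟩ := abs_le.1 hx
    refine (htube x h3 h4 y ?_).1
    rw [sub_zero]
    have := min_le_right (r / 2) (r2 / 2)
    linarith
  · intro y hy
    have hy2 : |y - 0| < r2 := by
      rw [sub_zero]
      have := min_le_right (r / 2) (r2 / 2)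
      linarith
    have key : ∀ x : ℝ, |x| = w → (Q (x + y * Complex.I)).re < (Q 0).re := by
      intro x hx
      obtain ⟨h3, h4⟩ := abs_le.1 hx.le
      have h5 := (htube x h3 h4 y hy2).2
      have h6 := hgap x h3 h4 (by rw [sub_zero, hx]; exact min_le_right _ _)
      have h7 := (Complex.re_le_norm _).trans h5.le
      rw [Complex.sub_re, Complex.ofReal_zero, zero_mul, add_zero] at h7
      linarith
    have k1 := key w (abs_of_pos hw0)
    have k2 := key (-w) (by rw [abs_neg, abs_of_pos hw0])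
    push_cast at k2
    exact ⟨k1, k2⟩
  · intro x hx y hy
    obtain ⟨h3, h4⟩ := abs_le.1 hx
    set h := min (r / 2) (r2 / 2) with hh
    have hhpos : 0 < h := by positivity
    have hhr : h ≤ r / 2 := min_le_left _ _
    have hhr2 : h ≤ r2 / 2 := min_le_right _ _
    by_cases hxr : |x| < r / 2
    · have hconv := (convex_ball (0 : ℂ) r).norm_image_sub_le_of_norm_deriv_le
        (f := Q) (C := π) (fun z hz => hQ.differentiableAt (isOpen_ball.mem_nhds (hr1 z hz).1))
        (fun z hz => (hr1 z hz).2) (x := (x : ℂ)) (y := (x : ℂ) + y * Complex.I) (by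
          rw [mem_ball_zero_iff, Complex.norm_real, Real.norm_eq_abs]
          linarith) (by
          rw [mem_ball_zero_iff]
          refine (norm_add_le _ _).trans_lt ?_
          rw [norm_mul, Complex.norm_I, mul_one, Complex.norm_real, Complex.norm_real,
            Real.norm_eq_abs, Real.norm_eq_abs, hy]
          linarith)
      rw [add_sub_cancel_left, norm_mul, Complex.norm_I, mul_one, Complex.norm_real,
        Real.norm_eq_abs, hy] at hconv
      have h5 := (Complex.re_le_norm _).trans hconv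
      rw [Complex.sub_re] at h5
      have h6 : (Q x).re ≤ (Q 0).re := by
        by_cases hx0 : x = 0
        · rw [hx0, Complex.ofReal_zero]
        · exact (line_max hw hQ h0 h2 hx hx0).le
      have h7 : 0 < π * h := mul_pos Real.pi_pos hhpos
      linarith
    · push Not at hxr
      have h5 := (htube x h3 h4 y (by rw [sub_zero, hy]; linarith)).2
      have h6 := hgap x h3 h4 (by rw [sub_zero]; exact (min_le_left _ _).trans hxr)
      have h7 := (Complex.re_le_norm _).trans h5.le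
      rw [Complex.sub_re, Complex.ofReal_zero, zero_mul, add_zero] at h7
      have h8 : 0 < 2 * π * h := by positivity
      linarith

/-- the sum over the shift -/
theorem dsum {x₂ w : ℝ} (hw0 : 0 < w) (hw : w < x₂) (hw1 : w < 1) {Q : ℂ → ℂ}
    (hQ : DifferentiableOn ℂ Q (ball 0 x₂)) (h0 : deriv Q 0 = 0)
    (h2 : ∀ z ∈ ball (0 : ℂ) x₂, (deriv (deriv Q) z).re < 0) {q : ℕ → ℂ → ℂ}
    (hq : ∀ᶠ N : ℕ in atTop, DifferentiableOn ℂ (q N) (ball 0 x₂))
    (hlim : TendstoUniformlyOn q Q atTop (ball 0 x₂)) :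
    Tendsto (fun N : ℕ => Real.log ‖∑ d ∈ Ico (-(⌊w * N⌋₊ : ℤ)) ⌊w * N⌋₊,
      Complex.exp (N * q N ((d : ℂ) / N))‖ / N) atTop (𝓝 (Q 0).re) := by
  obtain ⟨h, hh, hin, hside, htop⟩ := exists_height hw0 hw hQ h0 h2
  have hx20 : 0 < x₂ := hw0.trans hw
  have m0 : (0 : ℂ) ∈ ball (0 : ℂ) x₂ := mem_ball_self hx20
  have hmap : Set.MapsTo (fun y : ℂ => y - 1) (ball 1 x₂) (ball 0 x₂) := by
    intro y hy
    rw [mem_ball_zero_iff]
    rwa [mem_ball, dist_eq_norm] at hy
  have hQs : DifferentiableOn ℂ (fun y => Q (y - 1)) (ball 1 x₂) :=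
    hQ.comp (by fun_prop) hmap
  have hdQ : deriv (fun y => Q (y - 1)) = fun y => deriv Q (y - 1) := by
    funext y
    exact deriv_comp_sub_const (f := Q) 1 y
  have hdQ2 : deriv (deriv fun y => Q (y - 1)) = fun y => deriv (deriv Q) (y - 1) := by
    rw [hdQ]
    funext y
    exact deriv_comp_sub_const (f := deriv Q) 1 y
  have hfl : Tendsto (fun N : ℕ => (⌊w * N⌋₊ : ℝ) / N) atTop (𝓝 w) := by
    have := (tendsto_nat_floor_mul_div_atTop (R := ℝ) (a := w) hw0.le).comp
      (tendsto_natCast_atTop_atTop (R := ℝ))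
    exact this
  have hle : ∀ N : ℕ, ⌊w * N⌋₊ ≤ N := by
    intro N
    have : (⌊w * N⌋₊ : ℝ) ≤ N := by
      refine (Nat.floor_le (by positivity)).trans ?_
      have : (0 : ℝ) ≤ N := Nat.cast_nonneg N
      nlinarith
    exact_mod_cast this
  have hre : ∀ y : ℂ, ((1 : ℝ) : ℂ) + y - 1 = y := by intro y; push_cast; ring
  have key := Pool.Agent.W588.HT.lapsum0 (fun N y => q N (y - 1)) (fun y => Q (y - 1)) (ball 1 x₂)
    (1 - w) (1 + w) h 1 (fun N => N - ⌊w * N⌋₊) (fun N => N + ⌊w * N⌋₊) isOpen_ball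
    (by
      filter_upwards [hq] with N hN
      exact hN.comp (by fun_prop) hmap)
    hQs
    (by
      have := hlim.comp (fun y : ℂ => y - 1)
      exact this.mono hmap)
    (by
      intro x y hx1 hx2 hy
      have h3 := hin (x - 1) y (abs_le.2 ⟨by linarith, by linarith⟩) hy
      rw [mem_ball, dist_eq_norm]
      rw [mem_ball_zero_iff] at h3
      have e : (x : ℂ) + y * Complex.I - 1 = ((x - 1 : ℝ) : ℂ) + y * Complex.I := by
        push_cast
        ring
      rw [e]
      exact h3)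
    hh
    (by
      have h3 : Tendsto (fun N : ℕ => 1 - (⌊w * N⌋₊ : ℝ) / N) atTop (𝓝 (1 - w)) :=
        hfl.const_sub 1
      refine h3.congr' ?_
      filter_upwards [eventually_gt_atTop 0] with N hN
      have hN' : (N : ℝ) ≠ 0 := by exact_mod_cast hN.ne'
      rw [Nat.cast_sub (hle N)]
      field_simp)
    (by
      have h3 : Tendsto (fun N : ℕ => 1 + (⌊w * N⌋₊ : ℝ) / N) atTop (𝓝 (1 + w)) :=
        hfl.const_add 1
      refine h3.congr' ?_
      filter_upwards [eventually_gt_atTop 0] with N hN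
      have hN' : (N : ℝ) ≠ 0 := by exact_mod_cast hN.ne'
      rw [Nat.cast_add]
      field_simp)
    (by rw [Complex.one_re]; linarith) (by rw [Complex.one_re]; linarith)
    (by rw [Complex.one_im, abs_zero]; exact hh)
    (by rw [hdQ]; simp only [sub_self]; exact h0)
    (by rw [hdQ2]; simp only [sub_self]; exact h2 0 m0)
    (by
      intro x hx1 hx2 hx3
      rw [Complex.one_re] at hx3
      have h3 := line_max hw hQ h0 h2 (x := x - 1) (abs_le.2 ⟨by linarith, by linarith⟩)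
        (sub_ne_zero.2 hx3)
      simp only [Complex.one_im, Complex.ofReal_zero, zero_mul, add_zero, sub_self]
      push_cast at h3
      exact h3)
    (by
      intro y hy
      obtain ⟨h3, h4⟩ := hside y hy
      simp only [sub_self]
      have e1 : ((1 - w : ℝ) : ℂ) + y * Complex.I - 1 = -w + y * Complex.I := by push_cast; ring
      have e2 : ((1 + w : ℝ) : ℂ) + y * Complex.I - 1 = w + y * Complex.I := by push_cast; ring
      rw [e1, e2]
      exact ⟨h4, h3⟩)
    (by
      intro x hx1 hx2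
      simp only [sub_self]
      have h3 := htop (x - 1) (abs_le.2 ⟨by linarith, by linarith⟩) h (abs_of_pos hh)
      have h4 := htop (x - 1) (abs_le.2 ⟨by linarith, by linarith⟩) (-h) (by
        rw [abs_neg, abs_of_pos hh])
      have e1 : (x : ℂ) + h * Complex.I - 1 = ((x - 1 : ℝ) : ℂ) + h * Complex.I := by
        push_cast; ring
      have e2 : (x : ℂ) - h * Complex.I - 1 = ((x - 1 : ℝ) : ℂ) + ((-h : ℝ) : ℂ) * Complex.I := by
        push_cast; ring
      rw [e1, e2]
      exact ⟨h3, h4⟩)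
  simp only [sub_self] at key
  refine key.congr' ?_
  filter_upwards [eventually_gt_atTop 0] with N hN
  congr 3
  have hN' : (N : ℂ) ≠ 0 := by exact_mod_cast hN.ne'
  refine Finset.sum_bij' (fun d _ => (d : ℤ) - N) (fun d _ => (d + N).toNat) ?_ ?_ ?_ ?_ ?_
  · intro d hd
    rw [Finset.mem_Ico] at hd ⊢
    have := hle N
    omega
  · intro d hd
    rw [Finset.mem_Ico] at hd ⊢
    have := hle N
    omega
  · intro d hd
    simp
  · intro d hd
    rw [Finset.mem_Ico] at hd
    have := hle N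
    omega
  · intro d hd
    have : (((d : ℤ) - N : ℤ) : ℂ) / N = (d : ℂ) / N - 1 := by
      push_cast
      field_simp
    simp only [this]

end Pool.Agent.Y481
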