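import Pool.Agent.Y481.Kb
import Pool.Agent.Y481.DSum
import Pool.Agent.W85.HT.StepA

/-!
# The kernel of the ring: sum over the shift
-/

set_option autoImplicit false

namespace Pool.Agent.Y481

open Finset Filter Topology Metric
open Pool.Agent.W711.HT
open scoped Real

lemma bet_pos : 0 < bet := by
  obtain ⟨ρs, hρs, hρs1, HB⟩ := f_BND
  have hπ := Real.pi_gt_three
  have hbet : c1 * ρs ^ 2 ≤ bet := by
    refine le_of_forall_pos_le_add fun ε hε => ?_
    obtain ⟨τ, hτ, hN⟩ := HB ε hε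
    obtain ⟨N, hN1, hN2⟩ := (hN.and (eventually_ge_atTop 1)).exists
    have h1 := hN1 0 (by omega) ρs 0 (by rw [abs_of_pos hρs]; linarith) (by simp [hτ.le])
    have h2 : ‖Rp N 0 ((ρs : ℂ) + ((0 : ℝ) : ℂ) * Complex.I)‖ = 1 := by simp [Rp]
    have h3 : Sd N 0 = 1 := by simp [Sd]
    rw [h2, h3, abs_of_pos hρs, min_self, one_pow, one_mul] at h1
    have h4 : 0 ≤ (N : ℝ) * (bet - c1 * ρs ^ 2 + ε) := by
      by_contra hcon
      push Not at hcon
      have := Real.exp_lt_exp.2 hcon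
      rw [Real.exp_zero] at this
      linarith
    have h5 : 0 < (N : ℝ) := by exact_mod_cast hN2
    have h6 := nonneg_of_mul_nonneg_right h4 h5
    linarith
  exact lt_of_lt_of_le (mul_pos c1_pos (by positivity)) hbet

/-- exponential bounds from a positive limit -/
lemma bds_pos {M : ℕ → ℂ} {V : ℝ} (hV : 0 < V)
    (h : Tendsto (fun N : ℕ => Real.log ‖M N‖ / N) atTop (𝓝 V)) :
    ∀ ε : ℝ, 0 < ε → ∀ᶠ N : ℕ in atTop, Real.exp (N * (V - ε)) ≤ ‖M N‖ ∧
      ‖M N‖ ≤ Real.exp (N * (V + ε)) := by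
  intro ε hε
  rw [Metric.tendsto_atTop] at h
  obtain ⟨N1, hN1⟩ := h (min ε V) (lt_min hε hV)
  filter_upwards [eventually_ge_atTop N1, eventually_gt_atTop 0] with N h1 h2
  have hN' : (0 : ℝ) < N := by exact_mod_cast h2
  have h3 := hN1 N h1
  rw [Real.dist_eq, abs_lt, lt_sub_iff_add_lt, lt_div_iff₀ hN', sub_lt_iff_lt_add,
    div_lt_iff₀ hN'] at h3
  have m1 := min_le_left ε V
  have m2 := min_le_right ε V
  have h6 : 0 < Real.log ‖M N‖ := by nlinarith [h3.1]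
  have h7 : 0 < ‖M N‖ := by
    rcases (norm_nonneg (M N)).eq_or_lt with h | h
    · rw [← h, Real.log_zero] at h6
      exact absurd h6 (lt_irrefl _)
    · exact h
  rw [← Real.log_le_iff_le_exp h7, ← Real.le_log_iff_exp_le h7]
  have m3 : (-(min ε V) + V) * N ≥ (-ε + V) * N :=
    mul_le_mul_of_nonneg_right (by linarith) hN'.le
  have m4 : (min ε V + V) * N ≤ (ε + V) * N :=
    mul_le_mul_of_nonneg_right (by linarith) hN'.le
  constructor
  · nlinarith [h3.1]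
  · nlinarith [h3.2]

lemma prod_diff {n : ℕ} {x y : ℕ → ℂ} {b : ℕ → ℝ} {η : ℝ} (hx : ∀ j < n, ‖x j‖ ≤ b j)
    (hy : ∀ j < n, ‖y j‖ ≤ b j) (hxy : ∀ j < n, ‖x j - y j‖ ≤ η * b j) :
    ‖∏ j ∈ range n, x j - ∏ j ∈ range n, y j‖ ≤ n * η * ∏ j ∈ range n, b j := by
  induction n with
  | zero => simp
  | succ n ih =>
    have ih := ih (fun j hj => hx j (by omega)) (fun j hj => hy j (by omega))
      (fun j hj => hxy j (by omega))
    rw [prod_range_succ, prod_range_succ, prod_range_succ]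
    have e : (∏ j ∈ range n, x j) * x n - (∏ j ∈ range n, y j) * y n =
        (∏ j ∈ range n, x j - ∏ j ∈ range n, y j) * x n + (∏ j ∈ range n, y j) * (x n - y n) := by
      ring
    rw [e]
    have hb : ∀ j < n + 1, 0 ≤ b j := fun j hj => (norm_nonneg _).trans (hx j hj)
    have hbp : 0 ≤ ∏ j ∈ range n, b j := prod_nonneg fun j hj => hb j (by
      rw [mem_range] at hj; omega)
    have hyp : ‖∏ j ∈ range n, y j‖ ≤ ∏ j ∈ range n, b j := by
      rw [norm_prod]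
      exact prod_le_prod (fun _ _ => norm_nonneg _) fun j hj => hy j (by
        rw [mem_range] at hj; omega)
    calc ‖(∏ j ∈ range n, x j - ∏ j ∈ range n, y j) * x n + (∏ j ∈ range n, y j) * (x n - y n)‖
        ≤ ‖∏ j ∈ range n, x j - ∏ j ∈ range n, y j‖ * ‖x n‖ +
          ‖∏ j ∈ range n, y j‖ * ‖x n - y n‖ := by
          rw [← norm_mul, ← norm_mul]
          exact norm_add_le _ _
      _ ≤ (n * η * ∏ j ∈ range n, b j) * b n + (∏ j ∈ range n, b j) * (η * b n) := by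
          refine add_le_add ?_ ?_
          · exact mul_le_mul ih (hx n (by omega)) (norm_nonneg _) ((norm_nonneg _).trans ih)
          · exact mul_le_mul hyp (hxy n (by omega)) (norm_nonneg _) hbp
      _ = (n + 1 : ℕ) * η * ((∏ j ∈ range n, b j) * b n) := by
          push_cast
          ring

lemma Rc_open (ρ τ : ℝ) : IsOpen (Rc ρ τ) := by
  have h1 : IsOpen {z : ℂ | |z.re| < ρ} := isOpen_lt (by fun_prop) (by fun_prop)
  have h2 : IsOpen {z : ℂ | |z.im| < τ} := isOpen_lt (by fun_prop) (by fun_prop)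
  exact h1.inter h2

lemma tuo_sum {q : ℕ → ℕ → ℂ → ℂ} {Q : ℕ → ℂ → ℂ} {U : Set ℂ} {n : ℕ}
    (h : ∀ j < n, TendstoUniformlyOn (q j) (Q j) atTop U) :
    TendstoUniformlyOn (fun N x => ∑ j ∈ range n, q j N x) (fun x => ∑ j ∈ range n, Q j x)
      atTop U := by
  induction n with
  | zero =>
    simp only [range_zero, sum_empty]
    intro u hu
    filter_upwards with N x _
    exact refl_mem_uniformity hu
  | succ n ih =>
    have h1 := (ih fun j hj => h j (by omega)).add (h n (by omega))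
    refine h1.congr ?_ |>.congr_right ?_
    · filter_upwards with N x _
      simp [sum_range_succ]
    · intro x _
      simp [sum_range_succ]

/-- WM -/
theorem wm (hKX : S_KX) : S_WM := by
  intro ρ₀ c C s dl hS
  obtain ⟨x₁, ρ₁, κ₁, c₁, C₁, G, kan, hρ10, K⟩ := hKX ρ₀ c C s dl hS
  have hbet := bet_pos
  have hx1 := K.hx.1
  have hρ1 := K.hρ
  have hκ1 := K.hκ
  have m0 : (0 : ℂ) ∈ Rc ρ₁ ρ₁ := by
    constructor
    · rw [Complex.zero_re, abs_zero]; exact hρ1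
    · rw [Complex.zero_im, abs_zero]; exact hρ1
  have hC1 : 0 ≤ C₁ := (norm_nonneg _).trans (K.bd 0 m0 0 m0 0 (mem_ball_self hx1))
  -- the modulus of continuity of `G` in `x`
  have hGc : ∀ ψ ∈ Rc ρ₁ ρ₁, ∀ ψ' ∈ Rc ρ₁ ρ₁, ∀ x ∈ ball (0 : ℂ) x₁,
      ‖G x ψ ψ' - G 0 ψ ψ'‖ ≤ (2 * C₁ / x₁) * ‖x‖ := by
    intro ψ hψ ψ' hψ' x hx
    have h1 := Complex.dist_le_div_mul_dist_of_mapsTo_ball (f := fun x => G x ψ ψ') (c := 0)
      (R₁ := x₁) (R₂ := 2 * C₁) (K.an ψ hψ ψ' hψ') (by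
        intro y hy
        rw [mem_closedBall, dist_eq_norm]
        refine (norm_sub_le _ _).trans ?_
        have h2 := K.bd ψ hψ ψ' hψ' y hy
        have h3 := K.bd ψ hψ ψ' hψ' 0 (mem_ball_self hx1)
        linarith) hx
    rw [dist_eq_norm, dist_zero_right] at h1
    exact h1
  set η : ℝ := min (κ₁ / 4) (bet / 4) with hη
  have hη0 : 0 < η := lt_min (by positivity) (by positivity)
  obtain ⟨x₂, hx2, hx21, hx2η⟩ : ∃ x₂ : ℝ, 0 < x₂ ∧ x₂ < x₁ ∧ (2 * C₁ / x₁) * x₂ ≤ η := by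
    refine ⟨min (x₁ / 2) (η * x₁ / (2 * C₁ + 1)), lt_min (by positivity) (by positivity), ?_, ?_⟩
    · exact (min_le_left _ _).trans_lt (by linarith)
    · calc (2 * C₁ / x₁) * min (x₁ / 2) (η * x₁ / (2 * C₁ + 1))
          ≤ (2 * C₁ / x₁) * (η * x₁ / (2 * C₁ + 1)) :=
            mul_le_mul_of_nonneg_left (min_le_right _ _) (by positivity)
        _ = η * (2 * C₁ / (2 * C₁ + 1)) := by field_simp
        _ ≤ η * 1 := by
            refine mul_le_mul_of_nonneg_left ?_ hη0.le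
            rw [div_le_one (by positivity)]
            linarith
        _ = η := mul_one _
  have hGη : ∀ ψ ∈ Rc ρ₁ ρ₁, ∀ ψ' ∈ Rc ρ₁ ρ₁, ∀ x : ℂ, ‖x‖ ≤ x₂ → ‖G x ψ ψ' - G 0 ψ ψ'‖ ≤ η := by
    intro ψ hψ ψ' hψ' x hx
    refine (hGc ψ hψ ψ' hψ' x (by rw [mem_ball_zero_iff]; linarith)).trans ?_
    exact (mul_le_mul_of_nonneg_left hx (by positivity)).trans hx2η
  set x₃ : ℝ := x₂ / 2 with hx3
  have hx30 : 0 < x₃ := by positivity
  have hx32 : x₃ < x₂ := by rw [hx3]; linarith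
  set w : ℝ := x₃ / 2 with hw
  have hw0 : 0 < w := by positivity
  have hw3 : w < x₃ := by rw [hw]; linarith
  have hw1 : w < 1 := by
    have := K.hx.2
    linarith
  obtain ⟨κ', hκ', τ', hτ', hfar⟩ := kd_far (w := w / 2) (by positivity)
  -- the neighbourhood
  obtain ⟨ρ₂, hρ2, hρ21, hρ2τ, hρ2π, hsnear⟩ : ∃ ρ₂ : ℝ, 0 < ρ₂ ∧ ρ₂ ≤ ρ₁ ∧ ρ₂ ≤ τ' ∧ ρ₂ ≤ 1 ∧
      ∀ ψ ∈ Rc ρ₂ ρ₂, ∀ ψ' ∈ Rc ρ₂ ρ₂, ‖s ψ ψ' - 2 * bet‖ ≤ min (κ' / 2) bet := by
    have hρ0 := hS.hρ.1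
    have m00 : ((0 : ℂ), (0 : ℂ)) ∈ Rc ρ₀ ρ₀ ×ˢ Rc ρ₀ ρ₀ := by
      constructor <;> constructor <;> simp [hρ0]
    have hc : ContinuousAt (fun p : ℂ × ℂ => s p.1 p.2) (0, 0) :=
      hS.san.continuousOn.continuousAt (((Rc_open _ _).prod (Rc_open _ _)).mem_nhds m00)
    rw [Metric.continuousAt_iff] at hc
    obtain ⟨r, hr, hr2⟩ := hc (min (κ' / 2) bet) (lt_min (by positivity) hbet)
    refine ⟨min (min ρ₁ τ') (min 1 (r / 2)), lt_min (lt_min hρ1 hτ') (lt_min one_pos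
      (by positivity)), (min_le_left _ _).trans (min_le_left _ _),
      (min_le_left _ _).trans (min_le_right _ _), (min_le_right _ _).trans (min_le_left _ _), ?_⟩
    have hnorm : ∀ ψ ∈ Rc (min (min ρ₁ τ') (min 1 (r / 2))) (min (min ρ₁ τ') (min 1 (r / 2))),
        ‖ψ‖ < r := by
      intro ψ hψ
      have h3 : min (min ρ₁ τ') (min 1 (r / 2)) ≤ r / 2 :=
        (min_le_right _ _).trans (min_le_right _ _)
      have h1 := hψ.1
      have h2 := hψ.2
      have := Complex.norm_le_abs_re_add_abs_im ψ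
      linarith
    intro ψ hψ ψ' hψ'
    have h4 := hr2 (x := (ψ, ψ')) (by
      rw [Prod.dist_eq, dist_zero_right, dist_zero_right]
      exact max_lt (hnorm ψ hψ) (hnorm ψ' hψ'))
    rw [dist_eq_norm, hS.zero] at h4
    push_cast at h4
    exact h4.le
  have hsub : Rc ρ₂ ρ₂ ⊆ Rc ρ₁ ρ₁ := Pool.Agent.W85.HT.Rc_mono hρ21 hρ21
  have hsub0 : Rc ρ₂ ρ₂ ⊆ Rc ρ₀ ρ₀ := hsub.trans (Pool.Agent.W85.HT.Rc_mono hρ10 hρ10)
  refine ⟨ρ₂, hρ2, hρ21.trans hρ10, fun n hn ψ ψ₀ hψ₀ hlim => ?_⟩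
  have hmod : ∀ j < n, (j + 1) % n < n := fun j hj => Nat.mod_lt _ (by omega)
  set V : ℝ := (∑ j ∈ range n, s (ψ₀ j) (ψ₀ ((j + 1) % n))).re with hV
  have hsj : ∀ j < n, |(s (ψ₀ j) (ψ₀ ((j + 1) % n))).re - 2 * bet| ≤ min (κ' / 2) bet := by
    intro j hj
    have h1 := (Complex.abs_re_le_norm _).trans (hsnear _ (hψ₀ j hj) _ (hψ₀ _ (hmod j hj)))
    have h2 : (s (ψ₀ j) (ψ₀ ((j + 1) % n)) - 2 * bet).re =
        (s (ψ₀ j) (ψ₀ ((j + 1) % n))).re - 2 * bet := by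
      rw [Complex.sub_re]
      congr 1
      simp
    rwa [h2] at h1
  have hnR : (1 : ℝ) ≤ n := by exact_mod_cast hn
  have hVn : n * (2 * bet - κ' / 2) ≤ V ∧ n * bet ≤ V := by
    have h1 : V = ∑ j ∈ range n, (s (ψ₀ j) (ψ₀ ((j + 1) % n))).re := by
      rw [hV, Complex.re_sum]
    have h2 : ∀ b : ℝ, (∀ j ∈ range n, b ≤ (s (ψ₀ j) (ψ₀ ((j + 1) % n))).re) → n * b ≤ V := by
      intro b hb
      rw [h1]
      have := card_nsmul_le_sum (range n) _ b hb
      rwa [card_range, nsmul_eq_mul] at this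
    constructor
    · refine h2 _ fun j hj => ?_
      have h3 := (abs_le.1 (hsj j (mem_range.1 hj))).1
      have h4 := min_le_left (κ' / 2) bet
      linarith
    · refine h2 _ fun j hj => ?_
      have h3 := (abs_le.1 (hsj j (mem_range.1 hj))).1
      have h4 := min_le_right (κ' / 2) bet
      linarith
  have hVpos : 0 < V := by
    have : bet ≤ n * bet := by nlinarith
    linarith [hVn.2]
  -- the points are eventually in the neighbourhood
  have hmem : ∀ᶠ N : ℕ in atTop, ∀ j < n, ψ N j ∈ Rc ρ₂ ρ₂ := by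
    have h1 : ∀ j ∈ range n, ∀ᶠ N : ℕ in atTop, ψ N j ∈ Rc ρ₂ ρ₂ := fun j hj =>
      (hlim j (mem_range.1 hj)).eventually ((Rc_open _ _).mem_nhds (hψ₀ j (mem_range.1 hj)))
    have h2 := (Filter.eventually_all_finset (range n)).2 h1
    filter_upwards [h2] with N hN j hj
    exact hN j (mem_range.2 hj)
  -- asymptotics of `kan`
  have hmw : ∀ j < n, MW (fun N x => kan N x (ψ N j) (ψ N ((j + 1) % n)))
      (fun x => G x (ψ₀ j) (ψ₀ ((j + 1) % n))) (ball 0 x₂) := by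
    intro j hj ε hε
    have hG : DifferentiableOn ℂ (fun x => G x (ψ₀ j) (ψ₀ ((j + 1) % n))) (ball 0 x₁) :=
      K.an _ (hsub (hψ₀ j hj)) _ (hsub (hψ₀ _ (hmod j hj)))
    have h1 := Pool.Agent.W583.HT.seq ℂ (closedBall 0 x₂) (isCompact_closedBall _ _)
      (fun N x => Real.log ‖kan N x (ψ N j) (ψ N ((j + 1) % n))‖ / N)
      (fun x => (G x (ψ₀ j) (ψ₀ ((j + 1) % n))).re)
      (Complex.continuous_re.comp_continuousOn (hG.continuousOn.mono
        (closedBall_subset_ball hx21)))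
      (by
        intro p p₀ hp0 _ hp
        exact K.lim p (fun N => ψ N j) (fun N => ψ N ((j + 1) % n)) p₀ _ _
          (closedBall_subset_ball hx21 hp0) (hsub (hψ₀ j hj)) (hsub (hψ₀ _ (hmod j hj))) hp
          (hlim j hj) (hlim _ (hmod j hj)))
      (min ε (bet / 4)) (lt_min hε (by positivity))
    filter_upwards [h1, eventually_gt_atTop 0] with N hN hN0 x hx
    have hN' : (0 : ℝ) < N := by exact_mod_cast hN0
    have k1 := hN x (ball_subset_closedBall hx)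
    have k2 : bet ≤ (G x (ψ₀ j) (ψ₀ ((j + 1) % n))).re + bet / 4 := by
      have k3 := hGη _ (hsub (hψ₀ j hj)) _ (hsub (hψ₀ _ (hmod j hj))) x
        (by rw [mem_ball_zero_iff] at hx; exact hx.le)
      have k4 := (Complex.abs_re_le_norm _).trans k3
      rw [Complex.sub_re, K.zero _ (hsub (hψ₀ j hj)) _ (hsub (hψ₀ _ (hmod j hj)))] at k4
      have k5 := (abs_le.1 k4).1
      have k6 := (abs_le.1 (hsj j hj)).1
      have k7 := min_le_right (κ' / 2) bet
      have k8 : η ≤ bet / 4 := min_le_right _ _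
      linarith
    have k9 : |Real.log ‖kan N x (ψ N j) (ψ N ((j + 1) % n))‖ / N -
        (G x (ψ₀ j) (ψ₀ ((j + 1) % n))).re| ≤ bet / 4 := k1.trans (min_le_right _ _)
    refine ⟨?_, ?_⟩
    · intro h0
      rw [h0, norm_zero, Real.log_zero, zero_div, zero_sub, abs_neg] at k9
      have := (le_abs_self _).trans k9
      linarith
    · have k10 := k1.trans (min_le_left _ _)
      have k3 : Real.log ‖kan N x (ψ N j) (ψ N ((j + 1) % n))‖ -
          N * (G x (ψ₀ j) (ψ₀ ((j + 1) % n))).re =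
          N * (Real.log ‖kan N x (ψ N j) (ψ N ((j + 1) % n))‖ / N -
            (G x (ψ₀ j) (ψ₀ ((j + 1) % n))).re) := by
        field_simp
      rw [k3, abs_mul, abs_of_pos hN', mul_comm ε]
      exact mul_le_mul_of_nonneg_left k10 hN'.le
  -- logarithms
  have hlog : ∀ j : ℕ, ∃ (g : ℕ → ℂ → ℂ) (cc : ℕ → ℂ), j < n → (∀ N, ‖cc N‖ = 1) ∧
      (∀ᶠ N : ℕ in atTop, DifferentiableOn ℂ (g N) (ball 0 x₂) ∧
        ∀ z ∈ ball (0 : ℂ) x₂, kan N z (ψ N j) (ψ N ((j + 1) % n)) =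
          cc N * Complex.exp (N * g N z)) ∧
      TendstoUniformlyOn g (fun x => G x (ψ₀ j) (ψ₀ ((j + 1) % n))) atTop (closedBall 0 x₃) := by
    intro j
    by_cases hj : j < n
    · have hG : DifferentiableOn ℂ (fun x => G x (ψ₀ j) (ψ₀ ((j + 1) % n))) (ball 0 x₁) :=
        K.an _ (hsub (hψ₀ j hj)) _ (hsub (hψ₀ _ (hmod j hj)))
      obtain ⟨g, cc, h1, h2, h3⟩ := Pool.Agent.W930.HTLog.main
        (fun N x => kan N x (ψ N j) (ψ N ((j + 1) % n)))
        (fun x => G x (ψ₀ j) (ψ₀ ((j + 1) % n))) (ball 0 x₂) (closedBall 0 x₃) isOpen_ball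
        (convex_ball _ _)
        (by
          filter_upwards [K.kan_an, hmem] with N h1 h2
          exact (h1 _ (hsub (h2 j hj)) _ (hsub (h2 _ (hmod j hj)))).mono
            (ball_subset_ball hx21.le))
        (hG.mono (ball_subset_ball hx21.le)) (hmw j hj) (isCompact_closedBall _ _)
        (closedBall_subset_ball hx32)
      exact ⟨g, cc, fun _ => ⟨h1, h2, h3⟩⟩
    · exact ⟨fun _ _ => 0, fun _ => 0, fun h => absurd h hj⟩
  choose g cc hg using hlog
  set Q : ℂ → ℂ := fun x => ∑ j ∈ range n, G x (ψ₀ j) (ψ₀ ((j + 1) % n)) with hQ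
  set q : ℕ → ℂ → ℂ := fun N x => ∑ j ∈ range n, g j N x with hq
  have hGan : ∀ j ∈ range n, DifferentiableOn ℂ (fun x => G x (ψ₀ j) (ψ₀ ((j + 1) % n)))
      (ball 0 x₁) := by
    intro j hj
    rw [mem_range] at hj
    exact K.an _ (hsub (hψ₀ j hj)) _ (hsub (hψ₀ _ (hmod j hj)))
  have hQan : DifferentiableOn ℂ Q (ball 0 x₁) := DifferentiableOn.fun_sum hGan
  have hQ1 : ∀ z ∈ ball (0 : ℂ) x₁, HasDerivAt Q
      (∑ j ∈ range n, deriv (fun x => G x (ψ₀ j) (ψ₀ ((j + 1) % n))) z) z := by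
    intro z hz
    refine HasDerivAt.fun_sum fun j hj => ?_
    exact ((hGan j hj).differentiableAt (isOpen_ball.mem_nhds hz)).hasDerivAt
  have hQ2 : ∀ z ∈ ball (0 : ℂ) x₁, deriv (deriv Q) z =
      ∑ j ∈ range n, deriv (deriv fun x => G x (ψ₀ j) (ψ₀ ((j + 1) % n))) z := by
    intro z hz
    have h1 : deriv Q =ᶠ[𝓝 z] fun z =>
        ∑ j ∈ range n, deriv (fun x => G x (ψ₀ j) (ψ₀ ((j + 1) % n))) z := by
      filter_upwards [isOpen_ball.mem_nhds hz] with y hy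
      exact (hQ1 y hy).deriv
    rw [h1.deriv_eq]
    refine (HasDerivAt.fun_sum fun j hj => ?_).deriv
    exact (((hGan j hj).deriv isOpen_ball).differentiableAt (isOpen_ball.mem_nhds hz)).hasDerivAt
  have hQ0 : deriv Q 0 = 0 := by
    have h1 : HasDerivAt Q (∑ j ∈ range n, (Complex.log (1 + Complex.cos (ψ₀ j)) -
        Complex.log (1 + Complex.cos (ψ₀ ((j + 1) % n))))) 0 := by
      refine HasDerivAt.fun_sum fun j hj => ?_
      rw [mem_range] at hj
      exact K.der _ (hsub (hψ₀ j hj)) _ (hsub (hψ₀ _ (hmod j hj)))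
    rw [h1.deriv, sum_sub_distrib, sum_cyc n (fun j => Complex.log (1 + Complex.cos (ψ₀ j))),
      sub_self]
  have hQneg : ∀ z ∈ ball (0 : ℂ) x₃, (deriv (deriv Q) z).re < 0 := by
    intro z hz
    have hz1 : z ∈ ball (0 : ℂ) x₁ := ball_subset_ball (by linarith) hz
    rw [hQ2 z hz1, Complex.re_sum]
    refine sum_neg (fun j hj => ?_) ⟨0, mem_range.2 hn⟩
    rw [mem_range] at hj
    have := K.conc _ (hsub (hψ₀ j hj)) _ (hsub (hψ₀ _ (hmod j hj))) z hz1
    have := K.hc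
    linarith
  have hQre : (Q 0).re = V := by
    rw [hQ, hV]
    simp only
    congr 1
    refine sum_congr rfl fun j hj => ?_
    rw [mem_range] at hj
    exact K.zero _ (hsub (hψ₀ j hj)) _ (hsub (hψ₀ _ (hmod j hj)))
  have hgev : ∀ᶠ N : ℕ in atTop, ∀ j < n, DifferentiableOn ℂ (g j N) (ball 0 x₂) ∧
        ∀ z ∈ ball (0 : ℂ) x₂, kan N z (ψ N j) (ψ N ((j + 1) % n)) =
          cc j N * Complex.exp (N * g j N z) := by
    have h1 : ∀ j ∈ range n, ∀ᶠ N : ℕ in atTop, DifferentiableOn ℂ (g j N) (ball 0 x₂) ∧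
        ∀ z ∈ ball (0 : ℂ) x₂, kan N z (ψ N j) (ψ N ((j + 1) % n)) =
          cc j N * Complex.exp (N * g j N z) := fun j hj => (hg j (mem_range.1 hj)).2.1
    filter_upwards [(Filter.eventually_all_finset (range n)).2 h1] with N hN j hj
    exact hN j (mem_range.2 hj)
  have hmain0 := dsum hw0 hw3 hw1 (Q := Q) (hQan.mono (ball_subset_ball (by linarith))) hQ0 hQneg
    (q := q) (by
      filter_upwards [hgev] with N hN
      refine DifferentiableOn.fun_sum fun j hj => ?_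
      exact ((hN j (mem_range.1 hj)).1).mono (ball_subset_ball hx32.le))
    (tuo_sum fun j hj => (hg j hj).2.2.mono ball_subset_closedBall)
  rw [hQre] at hmain0
  have hfl : ∀ N : ℕ, (⌊w * N⌋₊ : ℝ) ≤ w * N := fun N => Nat.floor_le (by positivity)
  have hxin : ∀ N : ℕ, 0 < N → ∀ d ∈ Ico (-(⌊w * N⌋₊ : ℤ)) ⌊w * N⌋₊, |(d : ℝ) / N| ≤ w := by
    intro N hN d hd
    have hN' : (0 : ℝ) < N := by exact_mod_cast hN
    rw [mem_Ico] at hd
    have h1 : |(d : ℝ)| ≤ ⌊w * N⌋₊ := by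
      rw [abs_le]
      constructor
      · exact_mod_cast hd.1
      · exact_mod_cast hd.2.le
    rw [abs_div, abs_of_pos hN', div_le_iff₀ hN']
    exact h1.trans (hfl N)
  set M : ℕ → ℂ := fun N => ∑ d ∈ Ico (-(⌊w * N⌋₊ : ℤ)) ⌊w * N⌋₊,
    ∏ j ∈ range n, kan N ((d : ℂ) / N) (ψ N j) (ψ N ((j + 1) % n)) with hM
  have hmain : Tendsto (fun N : ℕ => Real.log ‖M N‖ / N) atTop (𝓝 V) := by
    refine hmain0.congr' ?_
    filter_upwards [hgev, eventually_gt_atTop 0] with N hN hN0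
    have h1 : M N = (∏ j ∈ range n, cc j N) * ∑ d ∈ Ico (-(⌊w * N⌋₊ : ℤ)) ⌊w * N⌋₊,
        Complex.exp (N * q N ((d : ℂ) / N)) := by
      rw [hM, mul_sum]
      refine sum_congr rfl fun d hd => ?_
      have h2 := hxin N hN0 d hd
      have h3 : ((d : ℂ) / N) ∈ ball (0 : ℂ) x₂ := by
        rw [mem_ball_zero_iff, ← Complex.ofReal_intCast, ← Complex.ofReal_natCast,
          ← Complex.ofReal_div, Complex.norm_real, Real.norm_eq_abs]
        linarith
      rw [hq, mul_sum, Complex.exp_sum, ← prod_mul_distrib]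
      refine prod_congr rfl fun j hj => ?_
      exact (hN j (mem_range.1 hj)).2 _ h3
    rw [h1, norm_mul, norm_prod, prod_congr rfl (fun j hj => (hg j (mem_range.1 hj)).1 N),
      prod_const_one, one_mul]
  have hMb := bds_pos hVpos hmain
  -- comparison
  set κ : ℝ := min (κ₁ / 8) (κ' / 8) with hκdef
  have hκ : 0 < κ := lt_min (by positivity) (by positivity)
  refine Pool.Agent.W85.HT.log_lim (M := M) (C := 2) hκ (by norm_num) hMb ?_
  -- continuity of `s`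
  have hscont : ∀ᶠ N : ℕ in atTop, ∀ j < n, (s (ψ N j) (ψ N ((j + 1) % n))).re ≤
      (s (ψ₀ j) (ψ₀ ((j + 1) % n))).re + κ₁ / 8 := by
    have h1 : ∀ j ∈ range n, ∀ᶠ N : ℕ in atTop, (s (ψ N j) (ψ N ((j + 1) % n))).re ≤
      (s (ψ₀ j) (ψ₀ ((j + 1) % n))).re + κ₁ / 8 := by
      intro j hj
      rw [mem_range] at hj
      have hc : ContinuousAt (fun p : ℂ × ℂ => s p.1 p.2) (ψ₀ j, ψ₀ ((j + 1) % n)) :=
        hS.san.continuousOn.continuousAt (((Rc_open _ _).prod (Rc_open _ _)).mem_nhds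
          ⟨hsub0 (hψ₀ j hj), hsub0 (hψ₀ _ (hmod j hj))⟩)
      have h2 : Tendsto (fun N => (ψ N j, ψ N ((j + 1) % n))) atTop
          (𝓝 (ψ₀ j, ψ₀ ((j + 1) % n))) := (hlim j hj).prodMk_nhds (hlim _ (hmod j hj))
      have h3 : Tendsto (fun N => (s (ψ N j) (ψ N ((j + 1) % n))).re) atTop
          (𝓝 (s (ψ₀ j) (ψ₀ ((j + 1) % n))).re) :=
        (Complex.continuous_re.tendsto _).comp (hc.tendsto.comp h2)
      exact h3.eventually_le_const (by linarith)
    filter_upwards [(Filter.eventually_all_finset (range n)).2 h1] with N hN j hj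
    exact hN j (mem_range.2 hj)
  set ε' : ℝ := κ₁ / (16 * n) with hε'
  have hε'0 : 0 < ε' := by positivity
  have hmwe : ∀ᶠ N : ℕ in atTop, ∀ j < n, ∀ x ∈ ball (0 : ℂ) x₂,
      kan N x (ψ N j) (ψ N ((j + 1) % n)) ≠ 0 ∧
      |Real.log ‖kan N x (ψ N j) (ψ N ((j + 1) % n))‖ -
        N * (G x (ψ₀ j) (ψ₀ ((j + 1) % n))).re| ≤ ε' * N := by
    have h1 : ∀ j ∈ range n, ∀ᶠ N : ℕ in atTop, ∀ x ∈ ball (0 : ℂ) x₂,
      kan N x (ψ N j) (ψ N ((j + 1) % n)) ≠ 0 ∧
      |Real.log ‖kan N x (ψ N j) (ψ N ((j + 1) % n))‖ -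
        N * (G x (ψ₀ j) (ψ₀ ((j + 1) % n))).re| ≤ ε' * N := fun j hj =>
      hmw j (mem_range.1 hj) ε' hε'0
    filter_upwards [(Filter.eventually_all_finset (range n)).2 h1] with N hN j hj
    exact hN j (mem_range.2 hj)
  filter_upwards [hmwe, hscont, hmem, K.near, hfar, eventually_gt_atTop 0,
    nat_le_exp (show 0 < κ₁ / 16 by positivity), nat_le_exp (show 0 < κ' / 8 by positivity),
    Pool.Agent.W85.HT.ev_exp (show 0 < κ₁ / 16 by positivity) (2 * n * 2 ^ n),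
    Pool.Agent.W85.HT.ev_exp (show 0 < κ' / 8 by positivity) 2,
    tendsto_natCast_atTop_atTop.eventually_ge_atTop (2 / w)] with N hN1 hN2 hN3 hN4 hN5 hN0 hN6
    hN7 hN8 hN9 hN10
  have hN' : (0 : ℝ) < N := by exact_mod_cast hN0
  -- near and far parts
  have hfloorN : ⌊w * N⌋₊ ≤ N := by
    have h1 : (⌊w * N⌋₊ : ℝ) ≤ N := (hfl N).trans (by nlinarith)
    exact_mod_cast h1
  have hsubset : Ico (-(⌊w * N⌋₊ : ℤ)) ⌊w * N⌋₊ ⊆ Ioo (-(N : ℤ)) N := by
    intro d hd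
    rw [mem_Ico] at hd
    rw [mem_Ioo]
    have h1 : (⌊w * N⌋₊ : ℝ) < N := (hfl N).trans_lt (by nlinarith)
    have h2 : ⌊w * N⌋₊ < N := by exact_mod_cast h1
    omega
  have hsplit : WN n N (ψ N) - M N =
      ∑ d ∈ Ico (-(⌊w * N⌋₊ : ℤ)) ⌊w * N⌋₊, (∏ j ∈ range n, kd N d (ψ N j) (ψ N ((j + 1) % n)) -
        ∏ j ∈ range n, kan N ((d : ℂ) / N) (ψ N j) (ψ N ((j + 1) % n))) +
      ∑ d ∈ Ioo (-(N : ℤ)) N \ Ico (-(⌊w * N⌋₊ : ℤ)) ⌊w * N⌋₊,
        ∏ j ∈ range n, kd N d (ψ N j) (ψ N ((j + 1) % n)) := by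
    rw [sum_sub_distrib]
    unfold WN
    rw [← sum_sdiff hsubset, hM]
    ring
  have hnear : ∀ d ∈ Ico (-(⌊w * N⌋₊ : ℤ)) ⌊w * N⌋₊,
      ‖∏ j ∈ range n, kd N d (ψ N j) (ψ N ((j + 1) % n)) -
        ∏ j ∈ range n, kan N ((d : ℂ) / N) (ψ N j) (ψ N ((j + 1) % n))‖ ≤
      n * 2 ^ n * Real.exp (N * (V - κ₁ / 2 + κ₁ / 16)) := by
    intro d hd
    have hd1 := hxin N hN0 d hd
    have hdc : ((d : ℂ) / N) = (((d : ℝ) / N : ℝ) : ℂ) := by push_cast; rfl
    have hdn : ‖((d : ℂ) / N)‖ ≤ w := by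
      rw [hdc, Complex.norm_real, Real.norm_eq_abs]
      exact hd1
    have hdb : ((d : ℂ) / N) ∈ ball (0 : ℂ) x₂ := by
      rw [mem_ball_zero_iff]
      linarith
    set b : ℕ → ℝ := fun j =>
      2 * Real.exp (N * ((G ((d : ℂ) / N) (ψ₀ j) (ψ₀ ((j + 1) % n))).re + ε')) with hb
    have hkan : ∀ j < n, ‖kan N ((d : ℂ) / N) (ψ N j) (ψ N ((j + 1) % n))‖ ≤ b j / 2 := by
      intro j hj
      obtain ⟨h1, h2⟩ := hN1 j hj _ hdb
      have h3 := (abs_le.1 h2).2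
      have h4 : Real.log ‖kan N ((d : ℂ) / N) (ψ N j) (ψ N ((j + 1) % n))‖ ≤
          N * ((G ((d : ℂ) / N) (ψ₀ j) (ψ₀ ((j + 1) % n))).re + ε') := by linarith
      rw [Real.log_le_iff_le_exp (norm_pos_iff.2 h1)] at h4
      rw [hb]
      simp only
      linarith
    have hdiff : ∀ j < n, ‖kd N d (ψ N j) (ψ N ((j + 1) % n)) -
        kan N ((d : ℂ) / N) (ψ N j) (ψ N ((j + 1) % n))‖ ≤
        Real.exp (-(N * (κ₁ / 2))) * (b j / 2) := by
      intro j hj
      have h1 := hN4 d (by linarith) _ (hsub (hN3 j hj)) _ (hsub (hN3 _ (hmod j hj)))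
      refine h1.trans ?_
      have h2 := hN2 j hj
      have h3 := hGη _ (hsub (hψ₀ j hj)) _ (hsub (hψ₀ _ (hmod j hj))) ((d : ℂ) / N) (by linarith)
      have h4 := (Complex.abs_re_le_norm _).trans h3
      rw [Complex.sub_re, K.zero _ (hsub (hψ₀ j hj)) _ (hsub (hψ₀ _ (hmod j hj)))] at h4
      have h5 := (abs_le.1 h4).1
      have h6 : η ≤ κ₁ / 4 := min_le_left _ _
      have h7 : b j / 2 = Real.exp (N * ((G ((d : ℂ) / N) (ψ₀ j) (ψ₀ ((j + 1) % n))).re + ε')) := by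
        rw [hb]
        ring
      rw [h7, ← Real.exp_add]
      apply Real.exp_le_exp.2
      have h8 : N * ((s (ψ N j) (ψ N ((j + 1) % n))).re - κ₁) ≤
          N * (-(κ₁ / 2) + ((G ((d : ℂ) / N) (ψ₀ j) (ψ₀ ((j + 1) % n))).re + ε')) :=
        mul_le_mul_of_nonneg_left (by linarith) hN'.le
      linarith
    have hexp1 : Real.exp (-(N * (κ₁ / 2))) ≤ 1 := by
      rw [Real.exp_le_one_iff]
      have : 0 ≤ (N : ℝ) * (κ₁ / 2) := by positivity
      linarith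
    have hbnn : ∀ j, 0 ≤ b j := fun j => by rw [hb]; positivity
    have h1 := prod_diff (n := n) (x := fun j => kd N d (ψ N j) (ψ N ((j + 1) % n)))
      (y := fun j => kan N ((d : ℂ) / N) (ψ N j) (ψ N ((j + 1) % n))) (b := b)
      (η := Real.exp (-(N * (κ₁ / 2))))
      (by
        intro j hj
        have h2 := norm_add_le (kan N ((d : ℂ) / N) (ψ N j) (ψ N ((j + 1) % n)))
          (kd N d (ψ N j) (ψ N ((j + 1) % n)) - kan N ((d : ℂ) / N) (ψ N j) (ψ N ((j + 1) % n)))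
        rw [add_sub_cancel] at h2
        have h3 := hkan j hj
        have h4 := hdiff j hj
        have h5 : Real.exp (-(N * (κ₁ / 2))) * (b j / 2) ≤ 1 * (b j / 2) :=
          mul_le_mul_of_nonneg_right hexp1 (by have := hbnn j; linarith)
        linarith)
      (fun j hj => (hkan j hj).trans (by have := hbnn j; linarith))
      (fun j hj => (hdiff j hj).trans (by
        have := hbnn j
        have := Real.exp_pos (-(N * (κ₁ / 2)))
        nlinarith))
    refine h1.trans ?_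
    have h2 : ∏ j ∈ range n, b j = 2 ^ n * Real.exp (N * ((Q ((d : ℂ) / N)).re + n * ε')) := by
      rw [hb, prod_mul_distrib, prod_const, card_range, ← Real.exp_sum, ← mul_sum]
      congr 3
      rw [sum_add_distrib, sum_const, card_range, nsmul_eq_mul, hQ, Complex.re_sum]
    rw [h2]
    have h3 : (Q ((d : ℂ) / N)).re ≤ V := by
      rw [← hQre]
      by_cases h0 : (d : ℝ) / N = 0
      · rw [hdc, h0, Complex.ofReal_zero]
      · rw [hdc]
        exact (line_max hw3 (hQan.mono (ball_subset_ball (by linarith))) hQ0 hQneg hd1 h0).le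
    have h4 : n * ε' = κ₁ / 16 := by
      rw [hε']
      field_simp
    have h5 : n * Real.exp (-(N * (κ₁ / 2))) *
        (2 ^ n * Real.exp (N * ((Q ((d : ℂ) / N)).re + n * ε'))) =
        n * 2 ^ n * Real.exp (N * ((Q ((d : ℂ) / N)).re - κ₁ / 2 + κ₁ / 16)) := by
      rw [h4]
      have : Real.exp (N * ((Q ((d : ℂ) / N)).re - κ₁ / 2 + κ₁ / 16)) =
          Real.exp (-(N * (κ₁ / 2))) * Real.exp (N * ((Q ((d : ℂ) / N)).re + κ₁ / 16)) := by
        rw [← Real.exp_add]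
        congr 1
        ring
      rw [this]
      ring
    rw [h5]
    refine mul_le_mul_of_nonneg_left (Real.exp_le_exp.2 ?_) (by positivity)
    exact mul_le_mul_of_nonneg_left (by linarith) hN'.le
  have hfarb : ∀ d ∈ Ioo (-(N : ℤ)) N \ Ico (-(⌊w * N⌋₊ : ℤ)) ⌊w * N⌋₊,
      ‖∏ j ∈ range n, kd N d (ψ N j) (ψ N ((j + 1) % n))‖ ≤ Real.exp (N * (V - κ' / 2)) := by
    intro d hd
    rw [Finset.mem_sdiff, Finset.mem_Ioo, Finset.mem_Ico] at hd
    have h1 : (⌊w * N⌋₊ : ℤ) ≤ |d| := by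
      rcases le_total 0 d with h | h
      · rw [abs_of_nonneg h]
        omega
      · rw [abs_of_nonpos h]
        omega
    have h2 : w / 2 ≤ |(d : ℝ) / N| := by
      rw [abs_div, abs_of_pos hN', le_div_iff₀ hN']
      have h3 : ((⌊w * N⌋₊ : ℤ) : ℝ) ≤ ((|d| : ℤ) : ℝ) := by exact_mod_cast h1
      rw [Int.cast_abs] at h3
      have h4 := Nat.lt_floor_add_one (w * N)
      have h5 : 2 ≤ w * N := by
        have := (div_le_iff₀ hw0).1 hN10
        linarith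
      push_cast at h3
      linarith
    rw [norm_prod]
    have hin : ∀ j < n, |(ψ N j).re| ≤ π ∧ |(ψ N j).im| ≤ τ' := by
      intro j hj
      have h3 := hN3 j hj
      have hπ := Real.pi_gt_three
      exact ⟨by linarith [h3.1], by linarith [h3.2]⟩
    calc ∏ j ∈ range n, ‖kd N d (ψ N j) (ψ N ((j + 1) % n))‖
        ≤ ∏ j ∈ range n, Real.exp (N * (2 * bet - κ')) := by
          refine prod_le_prod (fun _ _ => norm_nonneg _) fun j hj => ?_
          rw [mem_range] at hj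
          exact hN5 d h2 _ _ (hin j hj).1 (hin j hj).2 (hin _ (hmod j hj)).1 (hin _ (hmod j hj)).2
      _ = Real.exp (N * (n * (2 * bet - κ'))) := by
          rw [prod_const, card_range, ← Real.exp_nat_mul]
          congr 1
          ring
      _ ≤ _ := by
          apply Real.exp_le_exp.2
          apply mul_le_mul_of_nonneg_left _ hN'.le
          have := hVn.1
          have h6 : κ' / 2 ≤ n * (κ' / 2) := by nlinarith
          nlinarith
  rw [hsplit]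
  refine (norm_add_le _ _).trans ?_
  have hcard : ((Ioo (-(N : ℤ)) N).card : ℝ) ≤ 2 * N := by
    rw [Int.card_Ioo]
    have : ((N : ℤ) - -(N : ℤ) - 1).toNat ≤ 2 * N := by omega
    exact_mod_cast this
  have c1 : ((Ico (-(⌊w * N⌋₊ : ℤ)) ⌊w * N⌋₊).card : ℝ) ≤ 2 * N :=
    (Nat.cast_le.2 (card_le_card hsubset)).trans hcard
  have c2 : ((Ioo (-(N : ℤ)) N \ Ico (-(⌊w * N⌋₊ : ℤ)) ⌊w * N⌋₊).card : ℝ) ≤ 2 * N :=
    (Nat.cast_le.2 (card_le_card Finset.sdiff_subset)).trans hcard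
  have s1 := norm_sum_le_of_le _ hnear
  have s2 := norm_sum_le_of_le _ hfarb
  rw [sum_const, nsmul_eq_mul] at s1 s2
  have hκ1' : κ ≤ κ₁ / 8 := min_le_left _ _
  have hκ2' : κ ≤ κ' / 8 := min_le_right _ _
  have t1 : ((Ico (-(⌊w * N⌋₊ : ℤ)) ⌊w * N⌋₊).card : ℝ) *
      (n * 2 ^ n * Real.exp (N * (V - κ₁ / 2 + κ₁ / 16))) ≤ Real.exp (N * (V - κ)) := by
    calc ((Ico (-(⌊w * N⌋₊ : ℤ)) ⌊w * N⌋₊).card : ℝ) *
        (n * 2 ^ n * Real.exp (N * (V - κ₁ / 2 + κ₁ / 16)))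
        ≤ (2 * N) * (n * 2 ^ n * Real.exp (N * (V - κ₁ / 2 + κ₁ / 16))) :=
          mul_le_mul_of_nonneg_right c1 (by positivity)
      _ = (2 * n * 2 ^ n) * N * Real.exp (N * (V - κ₁ / 2 + κ₁ / 16)) := by ring
      _ ≤ Real.exp (κ₁ / 16 * N) * Real.exp (κ₁ / 16 * N) *
          Real.exp (N * (V - κ₁ / 2 + κ₁ / 16)) := by
          refine mul_le_mul_of_nonneg_right ?_ (Real.exp_pos _).le
          exact mul_le_mul hN8 hN6 hN'.le (Real.exp_pos _).le
      _ ≤ _ := by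
          rw [← Real.exp_add, ← Real.exp_add]
          apply Real.exp_le_exp.2
          nlinarith
  have t2 : ((Ioo (-(N : ℤ)) N \ Ico (-(⌊w * N⌋₊ : ℤ)) ⌊w * N⌋₊).card : ℝ) *
      Real.exp (N * (V - κ' / 2)) ≤ Real.exp (N * (V - κ)) := by
    calc ((Ioo (-(N : ℤ)) N \ Ico (-(⌊w * N⌋₊ : ℤ)) ⌊w * N⌋₊).card : ℝ) *
      Real.exp (N * (V - κ' / 2)) ≤ (2 * N) * Real.exp (N * (V - κ' / 2)) :=
          mul_le_mul_of_nonneg_right c2 (Real.exp_pos _).le
      _ ≤ Real.exp (κ' / 8 * N) * Real.exp (κ' / 8 * N) * Real.exp (N * (V - κ' / 2)) := by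
          refine mul_le_mul_of_nonneg_right ?_ (Real.exp_pos _).le
          exact mul_le_mul hN9 hN7 hN'.le (Real.exp_pos _).le
      _ ≤ _ := by
          rw [← Real.exp_add, ← Real.exp_add]
          apply Real.exp_le_exp.2
          nlinarith
  linarith

end Pool.Agent.Y481
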