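import Pool.Agent.Y481.Defs
import Pool.Agent.W711.HT.Final1

/-!
# Bounds of the kernels
-/

set_option autoImplicit false

namespace Pool.Agent.Y481

open Finset Filter Topology Metric
open Pool.Agent.W711.HT
open scoped Real

lemma c1_pos : 0 < c1 := by
  have := Real.pi_pos
  unfold c1
  positivity

lemma sum_cyc {M : Type} [AddCommMonoid M] (n : ℕ) (F : ℕ → M) :
    ∑ j ∈ range n, F ((j + 1) % n) = ∑ j ∈ range n, F j := by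
  rcases n with _ | m
  · simp
  · rw [sum_range_succ, sum_range_succ' (fun j => F j), Nat.mod_self]
    congr 1
    refine sum_congr rfl fun j hj => ?_
    rw [mem_range] at hj
    rw [Nat.mod_eq_of_lt (by omega)]

lemma rd_norm_le {N : ℕ} {d : ℤ} {ψ : ℂ} {B : ℝ} (hB : 0 ≤ B)
    (h : ∀ e : ℕ, (e : ℤ) = d → e < N → ‖Rp N e ψ‖ ≤ Sd N e ^ 2 * B) : ‖rd N d ψ‖ ≤ B := by
  unfold rd
  split_ifs with hd
  · have h1 := h d.toNat (by omega) (by omega)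
    rw [norm_div, norm_pow, Complex.norm_real, Real.norm_eq_abs, sq_abs]
    refine div_le_of_le_mul₀ (by positivity) hB ?_
    rw [mul_comm]
    exact h1
  · simpa using hB

lemma rd_bd : ∃ ρs : ℝ, 0 < ρs ∧ ρs ≤ 1 ∧ ∀ ε : ℝ, 0 < ε → ∃ τ : ℝ, 0 < τ ∧
    ∀ᶠ N : ℕ in atTop, ∀ d : ℤ, ∀ ψ : ℂ, |ψ.re| ≤ π → |ψ.im| ≤ τ →
      ‖rd N d ψ‖ ≤ Real.exp (N * (bet - c1 * min |ψ.re| ρs ^ 2 + ε)) := by
  obtain ⟨ρs, h0, h1, H⟩ := f_BND
  refine ⟨ρs, h0, h1, fun ε hε => ?_⟩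
  obtain ⟨τ, hτ, hN⟩ := H ε hε
  refine ⟨τ, hτ, ?_⟩
  filter_upwards [hN] with N hN d ψ hx hy
  refine rd_norm_le (Real.exp_pos _).le fun e _ he => ?_
  have := hN e he ψ.re ψ.im hx hy
  rwa [Complex.re_add_im] at this

lemma rd_far {ρ : ℝ} (hρ : 0 < ρ) : ∃ κ : ℝ, 0 < κ ∧ ∃ τ : ℝ, 0 < τ ∧
    ∀ᶠ N : ℕ in atTop, ∀ d : ℤ, ρ ≤ |(d : ℝ) / N - 1 / 4| → ∀ ψ : ℂ, |ψ.re| ≤ π → |ψ.im| ≤ τ →
      ‖rd N d ψ‖ ≤ Real.exp (N * (bet - κ)) := by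
  obtain ⟨κ, hκ, τ, hτ, hN⟩ := f_FARD ρ hρ
  refine ⟨κ, hκ, τ, hτ, ?_⟩
  filter_upwards [hN] with N hN d hd ψ hx hy
  refine rd_norm_le (Real.exp_pos _).le fun e he he2 => ?_
  have := hN e he2 (by rw [← he, Int.cast_natCast] at hd; exact hd) ψ.re ψ.im hx hy
  rwa [Complex.re_add_im] at this

lemma kd_norm_le {N : ℕ} {δ : ℤ} {ψ ψ' : ℂ} {B : ℝ}
    (h : ∀ d : ℤ, ‖rd N d ψ‖ * ‖rd N (d - δ) ψ'‖ ≤ B) : ‖kd N δ ψ ψ'‖ ≤ N * B := by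
  unfold kd
  refine (norm_sum_le_of_le (f := fun d : ℕ => rd N d ψ * rd N (d - δ) ψ') (range N)
    (n := fun _ => B) fun d _ => ?_).trans ?_
  · rw [norm_mul]
    exact h d
  · rw [sum_const, card_range, nsmul_eq_mul]

lemma nat_le_exp {ε : ℝ} (hε : 0 < ε) : ∀ᶠ N : ℕ in atTop, (N : ℝ) ≤ Real.exp (ε * N) :=
  Pool.Agent.W469.HT.nat_le_exp hε

/-- bound of the kernel -/
lemma kd_bd : ∃ ρs : ℝ, 0 < ρs ∧ ρs ≤ 1 ∧ ∀ ε : ℝ, 0 < ε → ∃ τ : ℝ, 0 < τ ∧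
    ∀ᶠ N : ℕ in atTop, ∀ δ : ℤ, ∀ ψ ψ' : ℂ, |ψ.re| ≤ π → |ψ.im| ≤ τ → |ψ'.re| ≤ π → |ψ'.im| ≤ τ →
      ‖kd N δ ψ ψ'‖ ≤
        Real.exp (N * (2 * bet - c1 * min |ψ.re| ρs ^ 2 - c1 * min |ψ'.re| ρs ^ 2 + ε)) := by
  obtain ⟨ρs, h0, h1, H⟩ := rd_bd
  refine ⟨ρs, h0, h1, fun ε hε => ?_⟩
  obtain ⟨τ, hτ, hN⟩ := H (ε / 3) (by positivity)
  refine ⟨τ, hτ, ?_⟩
  filter_upwards [hN, nat_le_exp (show 0 < ε / 3 by positivity)] with N hN h2 δ ψ ψ' hx hy hx' hy'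
  refine (kd_norm_le (B := Real.exp (N * (bet - c1 * min |ψ.re| ρs ^ 2 + ε / 3)) *
    Real.exp (N * (bet - c1 * min |ψ'.re| ρs ^ 2 + ε / 3))) fun d => ?_).trans ?_
  · exact mul_le_mul (hN d ψ hx hy) (hN (d - δ) ψ' hx' hy') (norm_nonneg _) (Real.exp_pos _).le
  · refine (mul_le_mul_of_nonneg_right h2 (by positivity)).trans (le_of_eq ?_)
    rw [← Real.exp_add, ← Real.exp_add]
    congr 1
    ring

/-- the kernel with a big shift -/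
lemma kd_far {w : ℝ} (hw : 0 < w) : ∃ κ : ℝ, 0 < κ ∧ ∃ τ : ℝ, 0 < τ ∧
    ∀ᶠ N : ℕ in atTop, ∀ δ : ℤ, w ≤ |(δ : ℝ) / N| → ∀ ψ ψ' : ℂ, |ψ.re| ≤ π → |ψ.im| ≤ τ →
      |ψ'.re| ≤ π → |ψ'.im| ≤ τ → ‖kd N δ ψ ψ'‖ ≤ Real.exp (N * (2 * bet - κ)) := by
  obtain ⟨κ, hκ, τ1, hτ1, hN1⟩ := rd_far (ρ := w / 2) (by positivity)
  obtain ⟨ρs, h0, h1, H⟩ := rd_bd
  obtain ⟨τ2, hτ2, hN2⟩ := H (κ / 4) (by positivity)
  refine ⟨κ / 2, by positivity, min τ1 τ2, lt_min hτ1 hτ2, ?_⟩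
  filter_upwards [hN1, hN2, nat_le_exp (show 0 < κ / 4 by positivity)] with N hN1 hN2 h2 δ hδ ψ ψ'
    hx hy hx' hy'
  have g1 : ∀ d : ℤ, ∀ ψ : ℂ, |ψ.re| ≤ π → |ψ.im| ≤ min τ1 τ2 →
      ‖rd N d ψ‖ ≤ Real.exp (N * (bet + κ / 4)) := by
    intro d ψ hx hy
    refine (hN2 d ψ hx (hy.trans (min_le_right _ _))).trans (Real.exp_le_exp.2 ?_)
    refine mul_le_mul_of_nonneg_left ?_ (Nat.cast_nonneg N)
    have : 0 ≤ c1 * min |ψ.re| ρs ^ 2 := mul_nonneg c1_pos.le (sq_nonneg _)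
    linarith
  refine (kd_norm_le (B := Real.exp (N * (bet - κ)) * Real.exp (N * (bet + κ / 4)))
    fun d => ?_).trans ?_
  · by_cases hd : w / 2 ≤ |(d : ℝ) / N - 1 / 4|
    · exact mul_le_mul (hN1 d hd ψ hx (hy.trans (min_le_left _ _))) (g1 (d - δ) ψ' hx' hy')
        (norm_nonneg _) (Real.exp_pos _).le
    · push Not at hd
      rw [mul_comm (Real.exp _)]
      refine mul_le_mul (g1 d ψ hx hy) (hN1 (d - δ) ?_ ψ' hx' (hy'.trans (min_le_left _ _)))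
        (norm_nonneg _) (Real.exp_pos _).le
      have e : (δ : ℝ) / N = ((d : ℝ) / N - 1 / 4) - (((d - δ : ℤ) : ℝ) / N - 1 / 4) := by
        push_cast
        ring
      rw [e] at hδ
      have := abs_sub ((d : ℝ) / N - 1 / 4) (((d - δ : ℤ) : ℝ) / N - 1 / 4)
      linarith
  · refine (mul_le_mul_of_nonneg_right h2 (by positivity)).trans (le_of_eq ?_)
    rw [← Real.exp_add, ← Real.exp_add]
    congr 1
    ring

/-- WB -/
theorem wb : S_WB := by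
  obtain ⟨ρs, h0, h1, H⟩ := kd_bd
  refine ⟨ρs, h0, h1, fun n ε hε => ?_⟩
  have hn : (0 : ℝ) < n + 1 := by positivity
  obtain ⟨τ, hτ, hN⟩ := H (ε / (4 * (n + 1))) (by positivity)
  refine ⟨τ, hτ, ?_⟩
  filter_upwards [hN, nat_le_exp (show 0 < ε / 4 by positivity),
    Pool.Agent.W85.HT.ev_exp (show 0 < ε / 4 by positivity) 2] with N hN h2 h3 ψ hψ
  set m : ℕ → ℝ := fun j => c1 * min |(ψ j).re| ρs ^ 2 with hm
  have hmod : ∀ j < n, (j + 1) % n < n := fun j hj => Nat.mod_lt _ (by omega)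
  have hprod : ∀ δ : ℤ, ‖∏ j ∈ range n, kd N δ (ψ j) (ψ ((j + 1) % n))‖ ≤
      Real.exp (N * (∑ j ∈ range n, (2 * bet - m j - m ((j + 1) % n) + ε / (4 * (n + 1))))) := by
    intro δ
    rw [norm_prod, mul_sum, Real.exp_sum]
    refine prod_le_prod (fun _ _ => norm_nonneg _) fun j hj => ?_
    rw [mem_range] at hj
    exact hN δ (ψ j) (ψ ((j + 1) % n)) (hψ j hj).1 (hψ j hj).2 (hψ _ (hmod j hj)).1
      (hψ _ (hmod j hj)).2
  unfold WN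
  refine (norm_sum_le_of_le _ fun δ _ => hprod δ).trans ?_
  rw [sum_const, nsmul_eq_mul]
  have hcard : ((Ioo (-(N : ℤ)) N).card : ℝ) ≤ 2 * N := by
    rw [Int.card_Ioo]
    have : ((N : ℤ) - -(N : ℤ) - 1).toNat ≤ 2 * N := by omega
    exact_mod_cast this
  have hsum : ∑ j ∈ range n, (2 * bet - m j - m ((j + 1) % n) + ε / (4 * (n + 1))) ≤
      ∑ j ∈ range n, (2 * bet - 2 * c1 * min |(ψ j).re| ρs ^ 2) + ε / 4 := by
    have e1 : ∑ j ∈ range n, (2 * bet - m j - m ((j + 1) % n) + ε / (4 * (n + 1))) =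
        ∑ j ∈ range n, (2 * bet - m j) - ∑ j ∈ range n, m ((j + 1) % n) +
          n * (ε / (4 * (n + 1))) := by
      rw [← sum_sub_distrib, sum_add_distrib, sum_const, card_range, nsmul_eq_mul]
    rw [e1, sum_cyc n m, ← sum_sub_distrib]
    have e2 : (n : ℝ) * (ε / (4 * (n + 1))) ≤ ε / 4 := by
      rw [mul_div_assoc', div_le_div_iff₀ (by positivity) (by norm_num)]
      nlinarith
    have e3 : ∀ j, 2 * bet - m j - m j = 2 * bet - 2 * c1 * min |(ψ j).re| ρs ^ 2 := by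
      intro j
      simp only [hm]
      ring
    simp only [e3]
    linarith
  have hN0 : (0 : ℝ) ≤ N := Nat.cast_nonneg N
  calc ((Ioo (-(N : ℤ)) N).card : ℝ) *
        Real.exp (N * (∑ j ∈ range n, (2 * bet - m j - m ((j + 1) % n) + ε / (4 * (n + 1)))))
      ≤ (Real.exp (ε / 4 * N) * Real.exp (ε / 4 * N)) *
        Real.exp (N * (∑ j ∈ range n, (2 * bet - 2 * c1 * min |(ψ j).re| ρs ^ 2) + ε / 4)) := by
        refine mul_le_mul ?_ ?_ (Real.exp_pos _).le (by positivity)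
        · refine hcard.trans ?_
          exact mul_le_mul h3 h2 hN0 (Real.exp_pos _).le
        · exact Real.exp_le_exp.2 (mul_le_mul_of_nonneg_left hsum hN0)
    _ ≤ _ := by
        rw [← Real.exp_add, ← Real.exp_add]
        refine Real.exp_le_exp.2 (le_of_sub_nonneg ?_)
        have : 0 ≤ (N : ℝ) * ε := by positivity
        nlinarith

end Pool.Agent.Y481
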