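import Pool.Agent.Y481.Sep

/-!
# The far parts of the paths
-/

set_option autoImplicit false

namespace Pool.Agent.Y481

open Finset Filter Topology Metric MeasureTheory
open Pool.Agent.W711.HT
open scoped Real

/-- the iterated integral over the near parts -/
noncomputable def itN (r : ℕ → ℝ) (a : ℕ → ℤ) (N : ℕ) : ℕ → ((ℕ → ℂ) → ℂ) → (ℕ → ℂ) → ℂ :=
  itG fun j => LN (r j) (a j) N

lemma LN_sub (ρ : ℝ) (a : ℤ) {N : ℕ} (hN : 1 ≤ N) {f g : ℂ → ℂ} (hf : Differentiable ℂ f)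
    (hg : Differentiable ℂ g) : LN ρ a N f - LN ρ a N g = LN ρ a N fun w => f w - g w := by
  have h := LN_lin ρ a hN (Bool) univ (fun b => if b then 1 else -1) (fun b => if b then f else g)
    (by intro b; cases b <;> simp [hf, hg])
  have e : (fun w => ∑ i : Bool, (if i then (1 : ℂ) else -1) * (if i then f else g) w) =
      fun w => f w - g w := by
    funext w
    rw [Fintype.sum_bool]
    simp
    ring
  rw [e, Fintype.sum_bool] at h
  rw [h]
  simp
  ring

theorem far_aux (n : ℕ) (a : ℕ → ℤ) (j : ℕ) (hj : j ≤ n) : ∃ C : ℝ, 0 < C ∧ ∀ r : ℕ → ℝ,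
    (∀ j < n, 0 < r j ∧ r j ≤ π) → ∀ᶠ N : ℕ in atTop, ∀ (f : (ℕ → ℂ) → ℂ) (B : ℝ), 0 ≤ B →
      Sep n f → (∀ ψ : ℕ → ℂ, (∀ j < n, |(ψ j).re| ≤ π ∧ |(ψ j).im| ≤ 1 / N) →
        (∃ j < n, r j ≤ |(ψ j).re|) → ‖f ψ‖ ≤ B) →
      ∀ ψ : ℕ → ℂ, (∀ j < n, |(ψ j).re| ≤ π ∧ |(ψ j).im| ≤ 1 / N) →
        ‖itI a N j f ψ - itN r a N j f ψ‖ ≤ C * B ∧
        ((∃ i, j ≤ i ∧ i < n ∧ r i ≤ |(ψ i).re|) → ‖itN r a N j f ψ‖ ≤ C * B) := by
  induction j with
  | zero =>
    refine ⟨1, one_pos, fun r hr => ?_⟩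
    filter_upwards with N f B hB hf hb ψ hψ
    refine ⟨?_, ?_⟩
    · simp only [itI, itN, itG, sub_self, norm_zero]
      linarith
    · rintro ⟨i, _, hi, hi2⟩
      rw [one_mul]
      exact hb ψ hψ ⟨i, hi, hi2⟩
  | succ j ih =>
    obtain ⟨C, hC, ih⟩ := ih (by omega)
    obtain ⟨D, hD, hU⟩ := upb (a j)
    refine ⟨3 * D * C, by positivity, fun r hr => ?_⟩
    have hjn : j < n := by omega
    filter_upwards [ih r hr, hU (r j) (hr j hjn).1 (hr j hjn).2, eventually_ge_atTop 1] with N ih hU hN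
      f B hB hf hb ψ hψ
    have hup : ∀ w : ℂ, |w.re| ≤ π → |w.im| ≤ 1 / N →
        ∀ i < n, |(Function.update ψ j w i).re| ≤ π ∧ |(Function.update ψ j w i).im| ≤ 1 / N := by
      intro w h1 h2 i hi
      by_cases hij : i = j
      · subst hij
        rw [Function.update_self]
        exact ⟨h1, h2⟩
      · rw [Function.update_of_ne hij]
        exact hψ i hi
    have hre : ∀ x y : ℝ, ((x : ℂ) + y * Complex.I).re = x := fun x y => by simp
    have him : ∀ x y : ℝ, ((x : ℂ) + y * Complex.I).im = y := fun x y => by simp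
    set FI : ℂ → ℂ := fun w => itI a N j f (Function.update ψ j w) with hFI
    set FN : ℂ → ℂ := fun w => itN r a N j f (Function.update ψ j w) with hFN
    have hFId : Differentiable ℂ FI := by
      rw [hFI, itI_eq]
      exact (itG_sep (fun j => LI_lin (a j) hN) hf (by omega)).diff ψ j
    have hFNd : Differentiable ℂ FN :=
      (itG_sep (fun j => LN_lin (r j) (a j) hN) hf (by omega)).diff ψ j
    have e1 : itI a N (j + 1) f ψ = LI (a j) N FI := rfl
    have e2 : itN r a N (j + 1) f ψ = LN (r j) (a j) N FN := rfl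
    have hdiff : ∀ x y : ℝ, |x| ≤ π → |y| ≤ 1 / N →
        ‖FI (x + y * Complex.I) - FN (x + y * Complex.I)‖ ≤ C * B := by
      intro x y hx hy
      exact (ih f B hB hf hb _ (hup _ (by rwa [hre]) (by rwa [him]))).1
    have hfarN : ∀ x y : ℝ, r j ≤ |x| → |x| ≤ π → |y| ≤ 1 / N →
        ‖FN (x + y * Complex.I)‖ ≤ C * B := by
      intro x y hx0 hx hy
      refine (ih f B hB hf hb _ (hup _ (by rwa [hre]) (by rwa [him]))).2 ⟨j, le_rfl, hjn, ?_⟩
      rw [Function.update_self, hre]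
      exact hx0
    have hCB : 0 ≤ C * B := by positivity
    refine ⟨?_, ?_⟩
    · have h1 : ‖LI (a j) N FI - LN (r j) (a j) N FI‖ ≤ D * (2 * (C * B)) := by
        refine (hU FI (2 * (C * B)) hFId.continuous).1 fun x y hx0 hx hy => ?_
        have k1 := hdiff x y hx hy
        have k2 := hfarN x y hx0 hx hy
        have k3 := norm_add_le (FI (x + y * Complex.I) - FN (x + y * Complex.I))
          (FN (x + y * Complex.I))
        rw [sub_add_cancel] at k3
        linarith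
      have h2 : ‖LN (r j) (a j) N FI - LN (r j) (a j) N FN‖ ≤ D * (C * B) := by
        rw [LN_sub _ _ hN hFId hFNd]
        refine (hU (fun w => FI w - FN w) (C * B) (hFId.sub hFNd).continuous).2
          fun x y hx hy => ?_
        exact hdiff x y (hx.trans (hr j hjn).2) hy
      rw [e1, e2]
      have e3 : LI (a j) N FI - LN (r j) (a j) N FN =
          (LI (a j) N FI - LN (r j) (a j) N FI) + (LN (r j) (a j) N FI - LN (r j) (a j) N FN) := by
        ring
      rw [e3]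
      refine (norm_add_le _ _).trans ?_
      nlinarith
    · rintro ⟨i, hi1, hi2, hi3⟩
      rw [e2]
      have h2 : ‖LN (r j) (a j) N FN‖ ≤ D * (C * B) := by
        refine (hU FN (C * B) hFNd.continuous).2 fun x y hx hy => ?_
        refine (ih f B hB hf hb _ (hup _ (by rw [hre]; exact hx.trans (hr j hjn).2)
          (by rwa [him]))).2 ⟨i, by omega, hi2, ?_⟩
        rw [Function.update_of_ne (by omega)]
        exact hi3
      have h3 : D * (C * B) ≤ 3 * D * C * B := by nlinarith [mul_nonneg hD.le hCB]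
      exact h2.trans h3

theorem far_part (n : ℕ) (a : ℕ → ℤ) : ∃ C : ℝ, 0 < C ∧ ∀ r : ℕ → ℝ,
    (∀ j < n, 0 < r j ∧ r j ≤ π) → ∀ᶠ N : ℕ in atTop, ∀ (f : (ℕ → ℂ) → ℂ) (B : ℝ), 0 ≤ B →
      Sep n f → (∀ ψ : ℕ → ℂ, (∀ j < n, |(ψ j).re| ≤ π ∧ |(ψ j).im| ≤ 1 / N) →
        (∃ j < n, r j ≤ |(ψ j).re|) → ‖f ψ‖ ≤ B) →
        ‖itI a N n f 0 - itN r a N n f 0‖ ≤ C * B := by
  obtain ⟨C, hC, h⟩ := far_aux n a n le_rfl
  refine ⟨C, hC, fun r hr => ?_⟩
  filter_upwards [h r hr] with N h f B hB hf hb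
  refine (h f B hB hf hb 0 fun j _ => ?_).1
  have := Real.pi_pos
  simp only [Pi.zero_apply, Complex.zero_re, abs_zero, Complex.zero_im]
  exact ⟨this.le, by positivity⟩

end Pool.Agent.Y481
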